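import Pool.Agent.H86.Vws.Sep

/-!
# Cutting a list at few places
-/

set_option autoImplicit false

namespace Pool.Agent.H86.Vws

open Finset

/-- A list is cut into pieces such that the pieces with even numbers contain only members at places with `f = true`, the
pieces with odd numbers only members at places with `f = false`. -/
theorem segment {α : Type} (f : ℕ → Bool) (W : Finset ℕ) : ∀ (l : List α),
    (∀ p q, p < l.length → q < l.length → (∀ w ∈ W, w ≤ p ↔ w ≤ q) → f p = f q) →
    ∃ segs : List (List α), segs.length = 2 * (W.card + 1) ∧ segs.flatten = l ∧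
      ∀ i s, segs[i]? = some s → ∀ a ∈ s, ∃ p, l[p]? = some a ∧ (f p = true ↔ i % 2 = 0) := by
  classical
  induction W using Finset.induction_on_max with
  | empty =>
    intro l hl
    by_cases hf : f 0 = true
    · refine ⟨[l, []], rfl, by simp, ?_⟩
      intro i s hs a ha
      rcases i with _ | _ | i
      · simp only [List.getElem?_cons_zero, Option.some.injEq] at hs
        subst hs
        obtain ⟨p, hp⟩ := List.mem_iff_getElem?.1 ha
        refine ⟨p, hp, ?_⟩
        have hp' : p < l.length := (List.getElem?_eq_some_iff.1 hp).1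
        have h1 := hl p 0 hp' (by omega) (by simp)
        rw [h1, hf]
        simp
      · simp only [zero_add, List.getElem?_cons_succ, List.getElem?_cons_zero, Option.some.injEq] at hs
        subst hs
        simp at ha
      · simp at hs
    · refine ⟨[[], l], rfl, by simp, ?_⟩
      intro i s hs a ha
      rcases i with _ | _ | i
      · simp only [List.getElem?_cons_zero, Option.some.injEq] at hs
        subst hs
        simp at ha
      · simp only [zero_add, List.getElem?_cons_succ, List.getElem?_cons_zero, Option.some.injEq] at hs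
        subst hs
        obtain ⟨p, hp⟩ := List.mem_iff_getElem?.1 ha
        refine ⟨p, hp, ?_⟩
        have hp' : p < l.length := (List.getElem?_eq_some_iff.1 hp).1
        have h1 := hl p 0 hp' (by omega) (by simp)
        rw [h1]
        simp [hf]
      · simp at hs
  | insert w W hw ih =>
    intro l hl
    have hwn : w ∉ W := fun h => lt_irrefl _ (hw w h)
    obtain ⟨segs, h1, h2, h3⟩ := ih (l.take w) (by
      intro p q hp hq hpq
      rw [List.length_take] at hp hq
      refine hl p q (by omega) (by omega) ?_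
      intro w' hw'
      rcases Finset.mem_insert.1 hw' with rfl | hw'
      · constructor
        · intro _; omega
        · intro _; omega
      · exact hpq w' hw')
    have hconst : ∀ p, w ≤ p → p < l.length → f p = f w := by
      intro p hp hpl
      refine hl p w hpl (by omega) ?_
      intro w' hw'
      rcases Finset.mem_insert.1 hw' with rfl | hw'
      · exact ⟨fun _ => le_rfl, fun _ => hp⟩
      · have := hw w' hw'
        exact ⟨fun _ => this.le, fun _ => by omega⟩
    -- the part after `w`
    have hdrop : ∀ a ∈ l.drop w, ∃ p, l[p]? = some a ∧ f p = f w := by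
      intro a ha
      obtain ⟨j, hj⟩ := List.mem_iff_getElem?.1 ha
      rw [List.getElem?_drop] at hj
      exact ⟨w + j, hj, hconst _ (by omega) (List.getElem?_eq_some_iff.1 hj).1⟩
    have htake : ∀ i s, segs[i]? = some s → ∀ a ∈ s, ∃ p, l[p]? = some a ∧ (f p = true ↔ i % 2 = 0) := by
      intro i s hs a ha
      obtain ⟨p, hp, h⟩ := h3 i s hs a ha
      refine ⟨p, ?_, h⟩
      have h4 := (List.getElem?_eq_some_iff.1 hp).1
      rw [List.length_take] at h4
      rw [← hp, List.getElem?_take_of_lt (by omega)]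
    by_cases hf : f w = true
    · refine ⟨segs ++ [l.drop w, []], ?_, ?_, ?_⟩
      · rw [List.length_append, h1, Finset.card_insert_of_notMem hwn]
        simp
        ring
      · rw [List.flatten_append, h2]
        simp
      · intro i s hs a ha
        rcases lt_or_ge i segs.length with hi | hi
        · rw [List.getElem?_append_left hi] at hs
          exact htake i s hs a ha
        · rw [List.getElem?_append_right hi] at hs
          rcases hj : i - segs.length with _ | _ | j
          · rw [hj] at hs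
            simp only [List.getElem?_cons_zero, Option.some.injEq] at hs
            subst hs
            obtain ⟨p, hp, hfp⟩ := hdrop a ha
            refine ⟨p, hp, ?_⟩
            rw [hfp, hf]
            simp only [true_iff]
            omega
          · rw [hj] at hs
            simp only [zero_add, List.getElem?_cons_succ, List.getElem?_cons_zero, Option.some.injEq] at hs
            subst hs
            simp at ha
          · rw [hj] at hs
            simp at hs
    · refine ⟨segs ++ [[], l.drop w], ?_, ?_, ?_⟩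
      · rw [List.length_append, h1, Finset.card_insert_of_notMem hwn]
        simp
        ring
      · rw [List.flatten_append, h2]
        simp
      · intro i s hs a ha
        rcases lt_or_ge i segs.length with hi | hi
        · rw [List.getElem?_append_left hi] at hs
          exact htake i s hs a ha
        · rw [List.getElem?_append_right hi] at hs
          rcases hj : i - segs.length with _ | _ | j
          · rw [hj] at hs
            simp only [List.getElem?_cons_zero, Option.some.injEq] at hs
            subst hs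
            simp at ha
          · rw [hj] at hs
            simp only [zero_add, List.getElem?_cons_succ, List.getElem?_cons_zero, Option.some.injEq] at hs
            subst hs
            obtain ⟨p, hp, hfp⟩ := hdrop a ha
            refine ⟨p, hp, ?_⟩
            rw [hfp]
            simp only [hf, Bool.false_eq_true, false_iff]
            omega
          · rw [hj] at hs
            simp at hs

/-- the same with a fixed number of pieces -/
theorem segment' {α : Type} (f : ℕ → Bool) (W : Finset ℕ) (K : ℕ) (hK : W.card ≤ K) (l : List α)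
    (hf : ∀ p q, (∀ w ∈ W, w ≤ p ↔ w ≤ q) → f p = f q) :
    ∃ segs : List (List α), segs.length = 2 * (K + 1) ∧ segs.flatten = l ∧
      ∀ i s, segs[i]? = some s → ∀ a ∈ s, ∃ p, l[p]? = some a ∧ (f p = true ↔ i % 2 = 0) := by
  obtain ⟨segs, h1, h2, h3⟩ := segment f W l fun p q _ _ h => hf p q h
  refine ⟨segs ++ List.replicate (2 * (K - W.card)) [], ?_, ?_, ?_⟩
  · rw [List.length_append, h1, List.length_replicate]
    omega
  · rw [List.flatten_append, h2]
    simp
  · intro i s hs a ha
    rcases lt_or_ge i segs.length with hi | hi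
    · rw [List.getElem?_append_left hi] at hs
      exact h3 i s hs a ha
    · rw [List.getElem?_append_right hi] at hs
      have := List.mem_replicate.1 (List.mem_of_getElem? hs)
      rw [this.2] at ha
      simp at ha

theorem exists_enum (S : Finset ℕ) (Q : ℕ) (h1 : S.Nonempty) (h2 : S.card ≤ Q) :
    ∃ g : Fin Q → ℕ, Monotone g ∧ (∀ a, g a ∈ S) ∧ ∀ p ∈ S, ∃ a, g a = p := by
  classical
  have hpos := Finset.card_pos.2 h1
  let e := S.orderEmbOfFin rfl
  refine ⟨fun a => e ⟨min a.1 (S.card - 1), by omega⟩, ?_, ?_, ?_⟩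
  · intro a b hab
    refine e.monotone ?_
    have h3 : a.1 ≤ b.1 := hab
    show min a.1 (S.card - 1) ≤ min b.1 (S.card - 1)
    omega
  · intro a
    exact Finset.orderEmbOfFin_mem S rfl _
  · intro p hp
    have h3 : p ∈ Set.range e := by
      rw [Finset.range_orderEmbOfFin]
      exact hp
    obtain ⟨i, hi⟩ := h3
    refine ⟨⟨i.1, lt_of_lt_of_le i.2 h2⟩, ?_⟩
    rw [← hi]
    show e _ = e i
    have h4 : (⟨min i.1 (S.card - 1), by omega⟩ : Fin S.card) = i := by
      apply Fin.ext
      show min i.1 (S.card - 1) = i.1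
      have := i.2
      omega
    rw [h4]

/-- If all leaves occur in a list of length at most `r 2 ^ (h + 1)`, then the list can be cut into `16 r + 2` pieces such that
for many pairs of leaves with disjoint connecting paths the first leaf occurs only in pieces with even numbers and the
second only in pieces with odd numbers. -/
theorem separate {α : Type} (r h : ℕ) (hr : 1 ≤ r) (l : List α) (ver : α → ℕ)
    (hall : ∀ u, u / 2 ^ h = 1 → ∃ a ∈ l, ver a = u) (hlen : l.length ≤ r * 2 ^ (h + 1)) :
    ∃ (z : ℕ) (x y k : Fin z → ℕ) (segs : List (List α)),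
      segs.length = 2 * (8 * r + 1) ∧ segs.flatten = l ∧
      (∀ i, x i / 2 ^ h = 1 ∧ y i / 2 ^ h = 1 ∧ 1 ≤ k i ∧ k i ≤ h ∧ x i / 2 ^ k i = y i / 2 ^ k i) ∧
      (∀ i j, i ≠ j → Disjoint (Pth (k i) (x i) (y i)) (Pth (k j) (x j) (y j))) ∧
      (∀ i j s, segs[j]? = some s → ∀ a ∈ s, ver a = x i → j % 2 = 0) ∧
      (∀ i j s, segs[j]? = some s → ∀ a ∈ s, ver a = y i → j % 2 = 1) ∧
      8 ^ h ≤ 2 * (5 ^ h * 2 ^ ((4 * r * (4 * r) + 2) * ((4 * r + 1) ^ (4 * r) * (2 * z + 1)))) := by
  classical
  set Q := 4 * r with hQ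
  let P : ℕ → Finset ℕ := fun u => (Finset.range l.length).filter fun p => (l[p]?).map ver = some u
  have hPmem : ∀ u p, p ∈ P u ↔ ∃ a, l[p]? = some a ∧ ver a = u := by
    intro u p
    simp only [P, Finset.mem_filter, Finset.mem_range, Option.map_eq_some_iff]
    constructor
    · rintro ⟨_, a, h1, h2⟩
      exact ⟨a, h1, h2⟩
    · rintro ⟨a, h1, h2⟩
      exact ⟨(List.getElem?_eq_some_iff.1 h1).1, a, h1, h2⟩
  have hPne : ∀ u, u / 2 ^ h = 1 → (P u).Nonempty := by
    intro u hu
    obtain ⟨a, ha, hv⟩ := hall u hu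
    obtain ⟨p, hp⟩ := List.mem_iff_getElem?.1 ha
    exact ⟨p, (hPmem u p).2 ⟨a, hp, hv⟩⟩
  have hPdis : ∀ u v, u ≠ v → Disjoint (P u) (P v) := by
    intro u v huv
    rw [Finset.disjoint_left]
    intro p h1 h2
    obtain ⟨a, h3, h4⟩ := (hPmem u p).1 h1
    obtain ⟨b, h5, h6⟩ := (hPmem v p).1 h2
    rw [h3] at h5
    simp only [Option.some.injEq] at h5
    subst h5
    exact huv (h4.symm.trans h6)
  -- the leaves
  let V : Finset ℕ := Finset.Ico (2 ^ h) (2 ^ (h + 1))
  have hV : ∀ u, u ∈ V ↔ u / 2 ^ h = 1 := by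
    intro u
    simp only [V, Finset.mem_Ico]
    rw [Nat.div_eq_iff (by positivity)]
    rw [pow_succ]
    have : 1 ≤ 2 ^ h := Nat.one_le_two_pow
    omega
  have hVc : V.card = 2 ^ h := by
    simp only [V, Nat.card_Ico, pow_succ]
    omega
  let F : Finset ℕ := V.filter fun u => (P u).card ≤ Q
  have hFV : ∀ u ∈ F, u / 2 ^ h = 1 := fun u hu => (hV u).1 (Finset.mem_filter.1 hu).1
  -- the number of the leaves in `F`
  have hFc : 2 ^ h ≤ 2 * F.card := by
    have h1 : ∑ u ∈ V, (P u).card ≤ l.length := by
      rw [← Finset.card_biUnion (fun u _ v _ huv => hPdis u v huv)]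
      refine (Finset.card_le_card (t := Finset.range l.length) ?_).trans (by simp)
      intro p hp
      rw [Finset.mem_biUnion] at hp
      obtain ⟨u, _, hp⟩ := hp
      exact (Finset.mem_filter.1 hp).1
    have h2 : (V.filter fun u => ¬ (P u).card ≤ Q).card * Q ≤ ∑ u ∈ V, (P u).card := by
      rw [← smul_eq_mul]
      refine (Finset.card_nsmul_le_sum _ _ Q ?_).trans (Finset.sum_le_sum_of_subset (Finset.filter_subset _ _))
      intro u hu
      have := (Finset.mem_filter.1 hu).2
      omega
    have h3 : F.card + (V.filter fun u => ¬ (P u).card ≤ Q).card = V.card :=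
      Finset.card_filter_add_card_filter_not _
    have h4 : (V.filter fun u => ¬ (P u).card ≤ Q).card * Q ≤ r * 2 ^ (h + 1) := h2.trans (h1.trans hlen)
    rw [hVc] at h3
    generalize (V.filter fun u => ¬ (P u).card ≤ Q).card = b at h3 h4
    rw [hQ, pow_succ] at h4
    have h5 : r * (4 * b) ≤ r * (2 * 2 ^ h) := by nlinarith
    have h6 := Nat.le_of_mul_le_mul_left h5 hr
    omega
  have hFne : F.Nonempty := by
    rw [← Finset.card_pos]
    have : 1 ≤ 2 ^ h := Nat.one_le_two_pow
    omega
  -- the times
  have hex : ∀ u, ∃ g : Fin Q → ℕ, u ∈ F → Monotone g ∧ (∀ a, g a ∈ P u) ∧ ∀ p ∈ P u, ∃ a, g a = p := by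
    intro u
    by_cases hu : u ∈ F
    · obtain ⟨g, hg⟩ := exists_enum (P u) Q (hPne u (hFV u hu)) (Finset.mem_filter.1 hu).2
      exact ⟨g, fun _ => hg⟩
    · exact ⟨fun _ => 0, fun h => absurd h hu⟩
  choose τ hτ using hex
  have hdis : ∀ x ∈ F, ∀ y ∈ F, x ≠ y → ∀ a b, τ x a ≠ τ y b := by
    intro x hx y hy hxy a b hab
    have h1 := (hτ x hx).2.1 a
    have h2 := (hτ y hy).2.1 b
    rw [hab] at h1
    exact Finset.disjoint_left.1 (hPdis x y hxy) h1 h2
  obtain ⟨z, x, y, k, R, hxy, hprec, hne, hpd, hcount⟩ := pairs τ h F hFV hFne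
    (fun x hx => (hτ x hx).1) hdis
  obtain ⟨W, f, hW, hf, hfx, hfy⟩ := colour τ x y R hprec
    (fun i j a b => hdis _ (hxy i).1 _ (hxy j).2.1 (hne i j) a b)
  obtain ⟨segs, hs1, hs2, hs3⟩ := segment' f W (8 * r) (by omega) l hf
  refine ⟨z, x, y, k, segs, hs1, hs2, ?_, hpd, ?_, ?_, ?_⟩
  · intro i
    obtain ⟨h1, h2, h3, h4, h5⟩ := hxy i
    exact ⟨hFV _ h1, hFV _ h2, h3, h4, h5⟩
  · intro i j s hs a ha hv
    obtain ⟨p, hp, hfp⟩ := hs3 j s hs a ha
    rw [← hfp]
    obtain ⟨b, hb⟩ := (hτ _ (hxy i).1).2.2 p ((hPmem _ p).2 ⟨a, hp, hv⟩)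
    rw [← hb]
    exact hfx i b
  · intro i j s hs a ha hv
    obtain ⟨p, hp, hfp⟩ := hs3 j s hs a ha
    obtain ⟨b, hb⟩ := (hτ _ (hxy i).2.1).2.2 p ((hPmem _ p).2 ⟨a, hp, hv⟩)
    have h1 := hfy i b
    rw [hb] at h1
    by_contra h2
    have h3 := hfp.2 (by omega)
    rw [h1] at h3
    simp at h3
  · calc 8 ^ h = 2 ^ h * 4 ^ h := by rw [← mul_pow]; norm_num
      _ ≤ (2 * F.card) * 4 ^ h := Nat.mul_le_mul_right _ hFc
      _ = 2 * (F.card * 4 ^ h) := by ring
      _ ≤ _ := Nat.mul_le_mul_left _ hcount

/-- The number of the pairs grows at least linearly with the height. -/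
theorem many_pairs {r h z B : ℕ} (hB : B = (4 * r * (4 * r) + 2) * (4 * r + 1) ^ (4 * r)) (hh : 3 * B + 3 ≤ h)
    (hc : 8 ^ h ≤ 2 * (5 ^ h * 2 ^ ((4 * r * (4 * r) + 2) * ((4 * r + 1) ^ (4 * r) * (2 * z + 1))))) :
    h ≤ 6 * B * z := by
  have h1 : (4 * r * (4 * r) + 2) * ((4 * r + 1) ^ (4 * r) * (2 * z + 1)) = B * (2 * z + 1) := by
    rw [hB]; ring
  rw [h1] at hc
  have h2 : (2 : ℕ) ^ (9 * h) ≤ 2 ^ (3 + 7 * h + 3 * (B * (2 * z + 1))) := by
    calc (2 : ℕ) ^ (9 * h) = (8 ^ h) ^ 3 := by
          rw [show (8 : ℕ) = 2 ^ 3 by norm_num, ← pow_mul, ← pow_mul]; congr 1; ring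
      _ ≤ (2 * (5 ^ h * 2 ^ (B * (2 * z + 1)))) ^ 3 := Nat.pow_le_pow_left hc 3
      _ = 8 * (125 ^ h * 2 ^ (3 * (B * (2 * z + 1)))) := by
          rw [mul_pow, mul_pow, ← pow_mul, ← pow_mul, mul_comm h 3, pow_mul 5 3 h, mul_comm _ 3]
          norm_num
      _ ≤ 8 * (128 ^ h * 2 ^ (3 * (B * (2 * z + 1)))) := by
          refine Nat.mul_le_mul_left _ (Nat.mul_le_mul_right _ (Nat.pow_le_pow_left (by norm_num) h))
      _ = _ := by
          rw [show (128 : ℕ) = 2 ^ 7 by norm_num, ← pow_mul, pow_add, pow_add]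
          ring
  have h3 := (Nat.pow_le_pow_iff_right (by norm_num : 1 < 2)).1 h2
  have h4 : 3 * (B * (2 * z + 1)) = 6 * B * z + 3 * B := by ring
  omega

end Pool.Agent.H86.Vws
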