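import Pool.Agent.H86.Vws.Lab
import Pool.Agent.H86.Vws.Seg

/-!
# The exchange argument
-/

set_option autoImplicit false

namespace Pool.Agent.H86.Vws

open Pool.Agent.H20VP MvPolynomial

variable {R : ℕ}

theorem vr_child {c c' : ℕ → Ix R} {p w : ℕ} (h : vr c p = vr c' p) (hw : w / 2 = p) : c w = c' w := by
  unfold vr at h
  simp only [Prod.mk.injEq, true_and] at h
  have : w = 2 * p ∨ w = 2 * p + 1 := by omega
  rcases this with rfl | rfl
  · exact h.2.1
  · exact h.2.2

theorem vr_self {c c' : ℕ → Ix R} {p : ℕ} (h : vr c p = vr c' p) : c p = c' p := by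
  unfold vr at h
  simp only [Prod.mk.injEq, true_and] at h
  exact h.1

/-- two labellings which can be mixed agree at some edge of the path -/
theorem agree {h x y k : ℕ} {c c' c'' : ℕ → Ix R} (hx : x / 2 ^ h = 1) (hy : y / 2 ^ h = 1) (hk1 : 1 ≤ k)
    (hkh : k ≤ h) (hxy : x / 2 ^ k = y / 2 ^ k)
    (hA : ∀ v, 1 ≤ v → v < 2 ^ (h + 1) → vr c'' v = vr c v ∨ vr c'' v = vr c' v)
    (hx' : vr c'' x = vr c x) (hy' : vr c'' y = vr c' y) : ∃ u ∈ Pth k x y, c u = c' u := by
  by_contra hcon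
  push Not at hcon
  -- the ancestors are vertices of the tree
  have hanc : ∀ w, w / 2 ^ h = 1 → ∀ j, j ≤ k → 1 ≤ w / 2 ^ j ∧ w / 2 ^ j < 2 ^ (h + 1) := by
    intro w hw j hj
    have h1 : w / 2 ^ h ≤ w / 2 ^ j := Nat.div_le_div_left (Nat.pow_le_pow_right (by norm_num) (by omega)) (by positivity)
    have h2 : w / 2 ^ j ≤ w := Nat.div_le_self _ _
    have h4 : w < 2 ^ (h + 1) := by
      rw [Nat.div_eq_iff (by positivity)] at hw
      rw [pow_succ]
      have : 1 ≤ 2 ^ h := Nat.one_le_two_pow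
      omega
    constructor
    · rw [hw] at h1
      exact h1
    · exact lt_of_le_of_lt h2 h4
  have up : ∀ (d d' : ℕ → Ix R) (w : ℕ), w / 2 ^ h = 1 → (∀ j < k, d (w / 2 ^ j) ≠ d' (w / 2 ^ j)) →
      (∀ v, 1 ≤ v → v < 2 ^ (h + 1) → vr c'' v = vr d v ∨ vr c'' v = vr d' v) → vr c'' w = vr d w →
      ∀ j, j ≤ k → vr c'' (w / 2 ^ j) = vr d (w / 2 ^ j) := by
    intro d d' w hw hne hAB hw' j
    induction j with
    | zero => intro _; simpa using hw'
    | succ j ih =>
      intro hj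
      have h1 := ih (by omega)
      have h2 : w / 2 ^ j / 2 = w / 2 ^ (j + 1) := by rw [Nat.div_div_eq_div_mul, ← pow_succ]
      obtain ⟨h3, h4⟩ := hanc w hw (j + 1) hj
      rcases hAB _ h3 h4 with h5 | h5
      · exact h5
      · exfalso
        have h6 := vr_child h5 h2
        have h7 := vr_self h1
        exact hne j (by omega) (h7.symm.trans h6)
  have h1 := up c c' x hx (fun j hj => hcon _ (mem_pth.2 ⟨j, hj, Or.inl rfl⟩)) hA hx' k le_rfl
  have h2 := up c' c y hy (fun j hj => (hcon _ (mem_pth.2 ⟨j, hj, Or.inr rfl⟩)).symm)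
    (fun v h3 h4 => (hA v h3 h4).symm) hy' k le_rfl
  have h3 := up c c' x hx (fun j hj => hcon _ (mem_pth.2 ⟨j, hj, Or.inl rfl⟩)) hA hx' (k - 1) (by omega)
  rw [← hxy] at h2
  have h4 : x / 2 ^ (k - 1) / 2 = x / 2 ^ k := by
    rw [Nat.div_div_eq_div_mul, ← pow_succ]
    congr 2
    omega
  have h5 := vr_child h2 h4
  have h6 := vr_self h3
  exact hcon _ (mem_pth.2 ⟨k - 1, by omega, Or.inl rfl⟩) (h6.symm.trans h5)

/-- the number of the functions which agree with a given one at some point of each of `z` disjoint sets -/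
theorem count_agree {E I : Type} [Fintype E] [DecidableEq E] [Fintype I] [DecidableEq I] {z : ℕ}
    (P : Fin z → Finset E) (hdis : ∀ i j, i ≠ j → Disjoint (P i) (P j)) (c0 : E → I) (b : ℕ)
    (hb : ∀ i, (P i).card ≤ b) :
    (Finset.univ.filter fun c : E → I => ∀ i, ∃ u ∈ P i, c u = c0 u).card * Fintype.card I ^ z ≤
      b ^ z * Fintype.card I ^ Fintype.card E := by
  classical
  -- for fixed points
  have one : ∀ w : Fin z → E, Function.Injective w →
      (Finset.univ.filter fun c : E → I => ∀ i, c (w i) = c0 (w i)).card * Fintype.card I ^ z ≤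
        Fintype.card I ^ Fintype.card E := by
    intro w hw
    have h1 : (Finset.univ.filter fun c : E → I => ∀ i, c (w i) = c0 (w i)) =
        Fintype.piFinset fun u => if u ∈ Finset.univ.image w then {c0 u} else Finset.univ := by
      ext c
      rw [Finset.mem_filter, Fintype.mem_piFinset]
      constructor
      · rintro ⟨_, h⟩ u
        by_cases hu : u ∈ Finset.univ.image w
        · rw [if_pos hu]
          obtain ⟨i, _, rfl⟩ := Finset.mem_image.1 hu
          rw [h i]
          exact Finset.mem_singleton_self _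
        · rw [if_neg hu]
          exact Finset.mem_univ _
      · intro h
        refine ⟨Finset.mem_univ _, fun i => ?_⟩
        have := h (w i)
        rw [if_pos (Finset.mem_image_of_mem _ (Finset.mem_univ i))] at this
        exact Finset.mem_singleton.1 this
    rw [h1, Fintype.card_piFinset]
    have h2 : ∀ u : E, (if u ∈ Finset.univ.image w then ({c0 u} : Finset I) else Finset.univ).card =
        if u ∈ Finset.univ.image w then 1 else Fintype.card I := by
      intro u
      split_ifs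
      · exact Finset.card_singleton _
      · exact Finset.card_univ
    rw [Finset.prod_congr rfl fun u _ => h2 u, Finset.prod_ite, Finset.prod_const_one, one_mul, Finset.prod_const,
      ← pow_add]
    refine le_of_eq ?_
    congr 1
    have h3 : (Finset.univ.filter fun u => ¬ u ∈ Finset.univ.image w).card + (Finset.univ.image w).card =
        Fintype.card E := by
      rw [← Finset.card_univ, ← Finset.card_filter_add_card_filter_not (s := (Finset.univ : Finset E))
        (fun u => u ∈ Finset.univ.image w), add_comm]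
      congr 2
      ext u
      simp
    rw [Finset.card_image_of_injective _ hw, Finset.card_univ, Fintype.card_fin] at h3
    exact h3
  have hsub : (Finset.univ.filter fun c : E → I => ∀ i, ∃ u ∈ P i, c u = c0 u) ⊆
      (Fintype.piFinset P).biUnion fun w => Finset.univ.filter fun c : E → I => ∀ i, c (w i) = c0 (w i) := by
    intro c hc
    have h := (Finset.mem_filter.1 hc).2
    choose w hw hcw using h
    rw [Finset.mem_biUnion]
    exact ⟨w, Fintype.mem_piFinset.2 hw, Finset.mem_filter.2 ⟨Finset.mem_univ _, hcw⟩⟩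
  calc (Finset.univ.filter fun c : E → I => ∀ i, ∃ u ∈ P i, c u = c0 u).card * Fintype.card I ^ z
      ≤ (∑ w ∈ Fintype.piFinset P, (Finset.univ.filter fun c : E → I => ∀ i, c (w i) = c0 (w i)).card) *
          Fintype.card I ^ z :=
        Nat.mul_le_mul_right _ ((Finset.card_le_card hsub).trans Finset.card_biUnion_le)
    _ = ∑ w ∈ Fintype.piFinset P, (Finset.univ.filter fun c : E → I => ∀ i, c (w i) = c0 (w i)).card *
          Fintype.card I ^ z := Finset.sum_mul _ _ _
    _ ≤ ∑ w ∈ Fintype.piFinset P, Fintype.card I ^ Fintype.card E := by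
        refine Finset.sum_le_sum fun w hw => one w ?_
        intro i j hij
        by_contra hne
        have h1 := Fintype.mem_piFinset.1 hw i
        have h2 := Fintype.mem_piFinset.1 hw j
        rw [hij] at h1
        exact Finset.disjoint_left.1 (hdis i j hne) h1 h2
    _ = (Fintype.piFinset P).card * Fintype.card I ^ Fintype.card E := by rw [Finset.sum_const, smul_eq_mul]
    _ ≤ b ^ z * Fintype.card I ^ Fintype.card E := by
        refine Nat.mul_le_mul_right _ ?_
        rw [Fintype.card_piFinset]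
        calc ∏ i, (P i).card ≤ ∏ _i : Fin z, b := Finset.prod_le_prod' fun i _ => hb i
          _ = b ^ z := by simp

section

variable {K : Type} [CommSemiring K] [Nontrivial K] [NoZeroDivisors K]

/-- what is remembered of a labelling -/
abbrev Dat (N : Type) (k z h : ℕ) : Type :=
  (Fin k → Option N) × (Fin z → Fin (2 ^ (h + 1)) × Fin (2 ^ (h + 1)) × Fin (h + 1))

/-- `d` is the information on the labelling `c` -/
def Good (C : Circuit K (Vr R)) {k z h : ℕ} (c : ℕ → Ix R) (d : Dat C.N k z h) : Prop :=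
  (List.ofFn d.1).getLastD none = some C.out ∧
    (∀ i, (d.2 i).1.1 / 2 ^ h = 1 ∧ (d.2 i).2.1.1 / 2 ^ h = 1 ∧ 1 ≤ (d.2 i).2.2.1 ∧
      (d.2 i).1.1 / 2 ^ (d.2 i).2.2.1 = (d.2 i).2.1.1 / 2 ^ (d.2 i).2.2.1) ∧
    (∀ i j, i ≠ j → Disjoint (Pth (d.2 i).2.2.1 (d.2 i).1.1 (d.2 i).2.1.1)
      (Pth (d.2 j).2.2.1 (d.2 j).1.1 (d.2 j).2.1.1)) ∧
    ∃ segs : List (List (Vr R)), Thru C none (List.ofFn d.1) segs ∧
      (∀ (i : ℕ) s, segs[i]? = some s → ∀ a ∈ s, a = vr c a.1) ∧
      (∀ i (j : ℕ) s, segs[j]? = some s → ∀ a ∈ s, a.1 = (d.2 i).1.1 → j % 2 = 0) ∧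
      (∀ i (j : ℕ) s, segs[j]? = some s → ∀ a ∈ s, a.1 = (d.2 i).2.1.1 → j % 2 = 1)

omit [Nontrivial K] [NoZeroDivisors K] in
theorem exists_good {C : Circuit K (Vr R)}
    {g : MvPolynomial (Vr R) K} (hC : C.Computes g) {r h z0 : ℕ} (hr : 1 ≤ r)
    (hz : ∀ z, 8 ^ h ≤ 2 * (5 ^ h * 2 ^ ((4 * r * (4 * r) + 2) * ((4 * r + 1) ^ (4 * r) * (2 * z + 1)))) → z0 ≤ z)
    (c : Ed h → Ix R) (hc : ∃ D ∈ g.support, D.support = (mono h 1 (ext c)).support ∧
      D.degree ≤ r * (mono h 1 (ext c)).degree) :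
    ∃ d : Dat C.N (2 * (8 * r + 1)) z0 h, Good C (ext c) d := by
  classical
  obtain ⟨φ, hφ, hout⟩ := hC
  obtain ⟨D, hD, hsupp, hdeg⟩ := hc
  rw [mem_support_iff, ← hout] at hD
  obtain ⟨l, hl, hlD⟩ := complete hφ C.out D hD none (Src.out C)
  have hmem : ∀ a, a ∈ l ↔ (1 ≤ a.1 ∧ a.1 < 2 ^ (h + 1)) ∧ a = vr (ext c) a.1 := by
    intro a
    rw [← mon_pos, hlD, ← Finsupp.mem_support_iff, hsupp, Finsupp.mem_support_iff, mem_lab]
  have hlen : l.length ≤ r * 2 ^ (h + 1) := by
    rw [← mon_degree, hlD]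
    refine hdeg.trans (Nat.mul_le_mul_left _ ?_)
    have := mono_degree h 1 (ext c)
    omega
  have hall : ∀ u, u / 2 ^ h = 1 → ∃ a ∈ l, a.1 = u := by
    intro u hu
    refine ⟨vr (ext c) u, (hmem _).2 ⟨?_, rfl⟩, rfl⟩
    rw [Nat.div_eq_iff (by positivity)] at hu
    show 1 ≤ u ∧ u < 2 ^ (h + 1)
    rw [pow_succ]
    have : 1 ≤ 2 ^ h := Nat.one_le_two_pow
    omega
  obtain ⟨z, x, y, k, segs, h1, h2, h3, h4, h5, h6, h7⟩ := separate r h hr l Prod.fst hall hlen
  have hz0 := hz z h7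
  have hlt : ∀ u, u / 2 ^ h = 1 → u < 2 ^ (h + 1) := by
    intro u hu
    rw [Nat.div_eq_iff (by positivity)] at hu
    rw [pow_succ]
    have : 1 ≤ 2 ^ h := Nat.one_le_two_pow
    omega
  obtain ⟨ts, h8, h9, h10⟩ := exists_thru segs none (some C.out) (by rw [h2]; exact hl) (by
    intro h; rw [h] at h1; simp at h1)
  rw [h1] at h9
  have hts : List.ofFn (fun i : Fin (2 * (8 * r + 1)) => ts[i.1]) = ts := by
    refine List.ext_getElem (by rw [List.length_ofFn, h9]) ?_
    intro i hi hi'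
    rw [List.getElem_ofFn]
  refine ⟨⟨fun i => ts[i.1], fun i => (⟨x ⟨i.1, by omega⟩, hlt _ (h3 _).1⟩, ⟨y ⟨i.1, by omega⟩, hlt _ (h3 _).2.1⟩,
    ⟨k ⟨i.1, by omega⟩, by have := (h3 ⟨i.1, by omega⟩).2.2.2.1; omega⟩)⟩, ?_, ?_, ?_, segs, ?_, ?_, ?_, ?_⟩
  · rw [hts]; exact h10
  · intro i
    obtain ⟨g1, g2, g3, g4, g5⟩ := h3 ⟨i.1, by omega⟩
    exact ⟨g1, g2, g3, g5⟩
  · intro i j hij
    refine h4 _ _ ?_
    intro h
    apply hij
    have := congrArg Fin.val h
    exact Fin.ext this
  · rw [hts]; exact h8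
  · intro i s hs a ha
    have h11 : a ∈ l := by
      rw [← h2, List.mem_flatten]
      exact ⟨s, List.mem_of_getElem? hs, ha⟩
    exact ((hmem a).1 h11).2
  · intro i j s hs a ha hv
    exact h5 _ j s hs a ha hv
  · intro i j s hs a ha hv
    exact h6 _ j s hs a ha hv

omit [Nontrivial K] [NoZeroDivisors K] in
/-- the circuit has at least as many nodes as the monomial has variables -/
theorem size_ge {C : Circuit K (Vr R)} {g : MvPolynomial (Vr R) K} (hC : C.Computes g) {h : ℕ} (c : Ed h → Ix R)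
    (hc : ∃ D ∈ g.support, D.support = (mono h 1 (ext c)).support) : 2 ^ h ≤ C.size := by
  classical
  have := C.fin
  obtain ⟨φ, hφ, hout⟩ := hC
  obtain ⟨D, hD, hsupp⟩ := hc
  rw [mem_support_iff, ← hout] at hD
  obtain ⟨l, hl, hlD⟩ := complete hφ C.out D hD none (Src.out C)
  have hmem : ∀ a, a ∈ l ↔ (1 ≤ a.1 ∧ a.1 < 2 ^ (h + 1)) ∧ a = vr (ext c) a.1 := by
    intro a
    rw [← mon_pos, hlD, ← Finsupp.mem_support_iff, hsupp, Finsupp.mem_support_iff, mem_lab]
  have hgate : ∀ (t : Option C.N) (l : List (Vr R)), Reach C none t l → ∀ x ∈ l, ∃ n, C.gate n = .var x := by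
    intro t l hl
    induction hl with
    | refl => intro x hx; simp at hx
    | tail _ h2 ih =>
      intro x hx
      rcases List.mem_append.1 hx with hx | hx
      · exact ih x hx
      · cases h2 with
        | @var _ n y hs hg =>
          rw [List.mem_singleton] at hx
          subst hx
          exact ⟨n, hg⟩
        | const _ _ _ => simp at hx
        | add _ _ => simp at hx
        | cls _ => simp at hx
  have hex : ∀ v : ℕ, ∃ n : C.N, v ∈ Finset.Ico 1 (2 ^ (h + 1)) → C.gate n = .var (vr (ext c) v) := by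
    intro v
    by_cases hv : v ∈ Finset.Ico 1 (2 ^ (h + 1))
    · obtain ⟨n, hn⟩ := hgate _ _ hl (vr (ext c) v) ((hmem _).2 ⟨Finset.mem_Ico.1 hv, rfl⟩)
      exact ⟨n, fun _ => hn⟩
    · exact ⟨C.out, fun h => absurd h hv⟩
  choose F hF using hex
  have hcard : (Finset.Ico 1 (2 ^ (h + 1))).card ≤ (Finset.univ : Finset C.N).card := by
    refine Finset.card_le_card_of_injOn F (fun v _ => Finset.mem_univ _) ?_
    intro v hv w hw hvw
    have h1 := hF v hv
    have h2 := hF w hw
    rw [hvw, h2] at h1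
    simp only [Gate.var.injEq] at h1
    exact (congrArg Prod.fst h1).symm
  rw [Nat.card_Ico, Finset.card_univ, pow_succ] at hcard
  have h1 : 1 ≤ 2 ^ h := Nat.one_le_two_pow
  have h2 : Fintype.card C.N = C.size := by
    unfold Circuit.size
    congr!
  rw [h2] at hcard
  omega

/-- two labellings with the same data agree on all the paths -/
theorem agree_of_good (h0 : ∀ a b : K, a + b = 0 → a = 0 ∧ b = 0) {C : Circuit K (Vr R)}
    {g : MvPolynomial (Vr R) K} (hC : C.Computes g) (hw : C.WeaklySkew) {h : ℕ}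
    (hs : ∀ D ∈ g.support, ∃ M ∈ (tree K R h 1 0).support, M ≤ D) {k z : ℕ} {d : Dat C.N k z h}
    {c c' : ℕ → Ix R} (hc : Good C c d) (hc' : Good C c' d) (i : Fin z) :
    ∃ u ∈ Pth (d.2 i).2.2.1 (d.2 i).1.1 (d.2 i).2.1.1, c u = c' u := by
  classical
  obtain ⟨φ, hφ, hout⟩ := hC
  obtain ⟨h1, h2, _, segs, h3, h4, h5, h6⟩ := hc
  obtain ⟨_, _, _, segs', h3', h4', h5', h6'⟩ := hc'
  have h7 := thru_reach (thru_mix h3 true segs' h3')
  rw [h1] at h7
  have h8 := sound h0 hw hφ h7
  rw [hout] at h8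
  obtain ⟨M, hM, hMD⟩ := hs _ (mem_support_iff.2 h8)
  rw [mem_support_iff] at hM
  obtain ⟨c1, hc1, hM1⟩ := exists_label h 1 0 M le_rfl hM
  obtain ⟨c2, hc2⟩ := exists_lab c1 hc1
  -- the variables of the mixture
  have hv : ∀ v, 1 ≤ v → v < 2 ^ (h + 1) → vr (ext c2) v ∈ (mix true segs segs').flatten := by
    intro v hv1 hv2
    rw [← mon_pos]
    have h9 : mono h 1 (ext c2) (vr (ext c2) v) ≠ 0 := (mem_lab c2 _).2 ⟨⟨hv1, hv2⟩, rfl⟩
    rw [← hc2, ← hM1] at h9
    have h10 := hMD (vr (ext c2) v)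
    omega
  obtain ⟨g1, g2, g3, g4⟩ := h2 i
  have hlt : ∀ u, u / 2 ^ h = 1 → 1 ≤ u ∧ u < 2 ^ (h + 1) := by
    intro u hu
    rw [Nat.div_eq_iff (by positivity)] at hu
    rw [pow_succ]
    have : 1 ≤ 2 ^ h := Nat.one_le_two_pow
    omega
  refine agree (c'' := ext c2) g1 g2 g3 (by have := (d.2 i).2.2.2; omega) g4 ?_ ?_ ?_
  · intro v hv1 hv2
    rcases mem_mix true segs segs' (hv v hv1 hv2) with ⟨j, s, k1, k2, _⟩ | ⟨j, s, k1, k2, _⟩
    · exact Or.inl (h4 j s k1 _ k2)
    · exact Or.inr (h4' j s k1 _ k2)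
  · rcases mem_mix true segs segs' (hv _ (hlt _ g1).1 (hlt _ g1).2) with ⟨j, s, k1, k2, _⟩ | ⟨j, s, k1, k2, k3⟩
    · exact h4 j s k1 _ k2
    · exfalso
      have := h5' i j s k1 _ k2 rfl
      simp only [Bool.true_eq_false, iff_false] at k3
      omega
  · rcases mem_mix true segs segs' (hv _ (hlt _ g2).1 (hlt _ g2).2) with ⟨j, s, k1, k2, k3⟩ | ⟨j, s, k1, k2, _⟩
    · exfalso
      have := h6 i j s k1 _ k2 rfl
      simp only [iff_true] at k3
      omega
    · exact h4' j s k1 _ k2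

/-- The main inequality. -/
theorem main_count (h0 : ∀ a b : K, a + b = 0 → a = 0 ∧ b = 0) {C : Circuit K (Vr R)}
    {g : MvPolynomial (Vr R) K} (hC : C.Computes g) (hw : C.WeaklySkew) {r h z0 : ℕ} (hr : 1 ≤ r)
    (hs : ∀ D ∈ g.support, ∃ M ∈ (tree K R h 1 0).support, M ≤ D)
    (hz : ∀ z, 8 ^ h ≤ 2 * (5 ^ h * 2 ^ ((4 * r * (4 * r) + 2) * ((4 * r + 1) ^ (4 * r) * (2 * z + 1)))) → z0 ≤ z)
    (G : Finset (Ed h → Ix R)) (hG : ∀ c ∈ G, ∃ D ∈ g.support, D.support = (mono h 1 (ext c)).support ∧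
      D.degree ≤ r * (mono h 1 (ext c)).degree) :
    G.card * (2 ^ R) ^ z0 ≤ ((C.size + 1) ^ (2 * (8 * r + 1)) * (2 ^ (h + 1) * (2 ^ (h + 1) * (h + 1))) ^ z0) *
      ((2 * h) ^ z0 * Fintype.card (Ed h → Ix R)) := by
  classical
  have := C.fin
  have hI : Fintype.card (Ix R) = 2 ^ R := by
    simp [Ix, ZMod.card]
  have hex : ∀ c : Ed h → Ix R, ∃ d : Dat C.N (2 * (8 * r + 1)) z0 h, c ∈ G → Good C (ext c) d := by
    intro c
    by_cases hc : c ∈ G
    · obtain ⟨d, hd⟩ := exists_good hC hr hz c (hG c hc)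
      exact ⟨d, fun _ => hd⟩
    · refine ⟨⟨fun _ => none, fun _ => (⟨0, by positivity⟩, ⟨0, by positivity⟩, ⟨0, by positivity⟩)⟩, fun h => absurd h hc⟩
  choose F hF using hex
  have hfib : ∀ d : Dat C.N (2 * (8 * r + 1)) z0 h,
      (G.filter fun c => F c = d).card * (2 ^ R) ^ z0 ≤ (2 * h) ^ z0 * Fintype.card (Ed h → Ix R) := by
    intro d
    rcases (G.filter fun c => F c = d).eq_empty_or_nonempty with he | ⟨c0, hc0⟩
    · rw [he, Finset.card_empty, zero_mul]
      exact Nat.zero_le _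
    · obtain ⟨hc1, hc2⟩ := Finset.mem_filter.1 hc0
      have hg0 := hF c0 hc1
      rw [hc2] at hg0
      let P : Fin z0 → Finset (Ed h) := fun i =>
        Finset.univ.filter fun u => u.1 ∈ Pth (d.2 i).2.2.1 (d.2 i).1.1 (d.2 i).2.1.1
      have hP : ∀ i j, i ≠ j → Disjoint (P i) (P j) := by
        intro i j hij
        rw [Finset.disjoint_left]
        intro u hu hu'
        exact Finset.disjoint_left.1 (hg0.2.2.1 i j hij) (Finset.mem_filter.1 hu).2 (Finset.mem_filter.1 hu').2
      have hPc : ∀ i, (P i).card ≤ 2 * h := by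
        intro i
        have h1 : ((P i).map (Function.Embedding.subtype _)).card ≤ (Pth (d.2 i).2.2.1 (d.2 i).1.1 (d.2 i).2.1.1).card := by
          refine Finset.card_le_card ?_
          intro u hu
          obtain ⟨v, hv, rfl⟩ := Finset.mem_map.1 hu
          exact (Finset.mem_filter.1 hv).2
        rw [Finset.card_map] at h1
        refine h1.trans ((pth_card _ _ _).trans ?_)
        have := (d.2 i).2.2.2
        omega
      have hcount := count_agree P hP c0 (2 * h) hPc
      rw [hI] at hcount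
      have hcard : Fintype.card (Ed h → Ix R) = (2 ^ R) ^ Fintype.card (Ed h) := by
        rw [Fintype.card_fun, hI]
      rw [hcard]
      refine le_trans (Nat.mul_le_mul_right _ (Finset.card_le_card ?_)) hcount
      intro c hc
      obtain ⟨hc3, hc4⟩ := Finset.mem_filter.1 hc
      have hg := hF c hc3
      rw [hc4] at hg
      rw [Finset.mem_filter]
      refine ⟨Finset.mem_univ _, fun i => ?_⟩
      obtain ⟨u, hu, hcu⟩ := agree_of_good h0 hC hw hs hg hg0 i
      -- `u` is an edge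
      have huE : u ∈ Finset.Ico 2 (2 ^ (h + 1)) := by
        obtain ⟨j, hj, huj⟩ := mem_pth.1 hu
        obtain ⟨g1, g2, g3, g4⟩ := hg0.2.1 i
        have hk := (d.2 i).2.2.2
        have gen : ∀ w, w / 2 ^ h = 1 → u = w / 2 ^ j → u ∈ Finset.Ico 2 (2 ^ (h + 1)) := by
          intro w hw hu'
          rw [Finset.mem_Ico]
          have e1 : u ≤ w := by rw [hu']; exact Nat.div_le_self _ _
          have e2 : w / 2 ^ j / 2 ^ (h - j) = 1 := by
            rw [Nat.div_div_eq_div_mul, ← pow_add, Nat.add_sub_cancel' (by omega), hw]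
          rw [← hu', Nat.div_eq_iff (by positivity)] at e2
          have e3 : 2 ≤ 2 ^ (h - j) := by
            calc 2 = 2 ^ 1 := by norm_num
              _ ≤ 2 ^ (h - j) := Nat.pow_le_pow_right (by norm_num) (by omega)
          rw [Nat.div_eq_iff (by positivity)] at hw
          rw [pow_succ]
          omega
        rcases huj with huj | huj
        · exact gen _ g1 huj
        · exact gen _ g2 huj
      refine ⟨⟨u, huE⟩, Finset.mem_filter.2 ⟨Finset.mem_univ _, hu⟩, ?_⟩
      unfold ext at hcu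
      rw [dif_pos huE, dif_pos huE] at hcu
      exact hcu
  have hsum : G.card = ∑ d : Dat C.N (2 * (8 * r + 1)) z0 h, (G.filter fun c => F c = d).card :=
    Finset.card_eq_sum_card_fiberwise fun c _ => Finset.mem_univ (F c)
  rw [hsum, Finset.sum_mul]
  refine (Finset.sum_le_sum fun d _ => hfib d).trans ?_
  rw [Finset.sum_const, smul_eq_mul, Finset.card_univ]
  refine Nat.mul_le_mul_right _ (le_of_eq ?_)
  rw [Fintype.card_prod, Fintype.card_fun, Fintype.card_fun, Fintype.card_fin, Fintype.card_fin, Fintype.card_option,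
    Fintype.card_prod, Fintype.card_prod, Fintype.card_fin, Fintype.card_fin]
  unfold Circuit.size
  congr!

end

end Pool.Agent.H86.Vws
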