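import Pool.Agent.H20VP.Defs

/-!
# Circuits which compute a polynomial only up to a factor

(Arithmetic circuits, weakly skew circuits and the tensor network polynomials `tree` of binary trees are defined in
`Pool/Agent/H20VP/Defs.lean`, over an arbitrary commutative semiring.)
-/

set_option autoImplicit false

namespace Pool.Agent.H86.Vws

open Pool.Agent.H20VP MvPolynomial

/-- The tensor network polynomial of the complete binary tree of height `h = ⌊log₂ n⌋` whose edges are labelled by the
`2 ^ (4 h)` elements of `F_2 ^ (4 h)`; it is the sum of `∏ v, x_v(c_v, c_{2v}, c_{2v+1})` over all labellings `c` of the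
edges (the edge from `u` to its parent has the number `u`; `c_1 = 0` and `c_u = 0` below the leaves). -/
noncomputable def net (K : Type) [CommSemiring K] (n : ℕ) : MvPolynomial (Vr (4 * Nat.log 2 n)) K :=
  tree K (4 * Nat.log 2 n) (Nat.log 2 n) 1 0

/-- The monomial `M` is covered by `g` up to the factor `r`: the polynomial `g` has a monomial with exactly the variables of
`M`, of degree at most `r` times the degree of `M`. -/
def Covers {X K : Type} [CommSemiring K] (r : ℕ) (g : MvPolynomial X K) (M : X →₀ ℕ) : Prop :=
  ∃ D ∈ g.support, D.support = M.support ∧ D.degree ≤ r * M.degree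

/-- `g` approximates `f` up to the factor `r`: every monomial of `g` is a multiple of a monomial of `f`, and at least one
`S`-th of the monomials of `f` are covered by `g` up to the factor `r`. -/
def Approx {X K : Type} [CommSemiring K] (r S : ℕ) (f g : MvPolynomial X K) : Prop :=
  (∀ D ∈ g.support, ∃ M ∈ f.support, M ≤ D) ∧
    f.support.card ≤ S * Set.ncard {M : X →₀ ℕ | M ∈ f.support ∧ Covers r g M}

/-- The semiring of the nonnegative real numbers and `∞` with the operations minimum (as addition) and sum (as
multiplication). -/
abbrev MinPlus : Type := Tropical ENNReal

/-- The value of a polynomial over `MinPlus` for the weights `w`: the minimum of the numbers `a + ∑ x, D x * w x` over the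
monomials `D` of `g` with their coefficients `a`. -/
noncomputable def cost {X : Type} (g : MvPolynomial X MinPlus) (w : X → ℕ) : ENNReal :=
  Tropical.untrop (MvPolynomial.eval (fun x => Tropical.trop (w x : ENNReal)) g)

end Pool.Agent.H86.Vws
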