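import Pool.Agent.H86.Vws.Run
import Pool.Agent.H20VP.Cutw

/-!
# The monomials of the tensor network polynomials of binary trees are the labellings of the edges
-/

set_option autoImplicit false

namespace Pool.Agent.H86.Vws

open Pool.Agent.H20VP MvPolynomial

variable {r : ℕ}

/-- the variable of the vertex `u` for the labelling `c` -/
def vr (c : ℕ → Ix r) (u : ℕ) : Vr r := (u, c u, c (2 * u), c (2 * u + 1))

/-- the monomial of a labelling in the tree of height `t` with root `v` -/
noncomputable def mono : ℕ → ℕ → (ℕ → Ix r) → (Vr r →₀ ℕ)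
  | 0, v, c => Finsupp.single (v, c v, 0, 0) 1
  | t + 1, v, c => Finsupp.single (vr c v) 1 + (mono t (2 * v) c + mono t (2 * v + 1) c)

theorem sub_left {v t u : ℕ} (h : Sub (2 * v) t u) : Sub v (t + 1) u := by
  obtain ⟨s, hs, h⟩ := h
  refine ⟨s + 1, by omega, ?_⟩
  rw [pow_succ, ← Nat.div_div_eq_div_mul, h]
  omega

theorem sub_right {v t u : ℕ} (h : Sub (2 * v + 1) t u) : Sub v (t + 1) u := by
  obtain ⟨s, hs, h⟩ := h
  refine ⟨s + 1, by omega, ?_⟩
  rw [pow_succ, ← Nat.div_div_eq_div_mul, h]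
  omega

theorem sub_cases {v t u : ℕ} (h : Sub v (t + 1) u) : u = v ∨ Sub (2 * v) t u ∨ Sub (2 * v + 1) t u := by
  obtain ⟨s, hs, h⟩ := h
  rcases s with _ | s
  · left; simpa using h
  · right
    rw [pow_succ, ← Nat.div_div_eq_div_mul] at h
    have : u / 2 ^ s = 2 * v ∨ u / 2 ^ s = 2 * v + 1 := by omega
    rcases this with h1 | h1
    · exact Or.inl ⟨s, by omega, h1⟩
    · exact Or.inr ⟨s, by omega, h1⟩

theorem sub_disj {v t u : ℕ} (hv : 1 ≤ v) (h1 : Sub (2 * v) t u) (h2 : Sub (2 * v + 1) t u) : False := by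
  obtain ⟨s, _, h1⟩ := h1
  obtain ⟨s', _, h2⟩ := h2
  have two : ∀ {a b : ℕ}, a < b → 2 ≤ 2 ^ (b - a) := fun {a b} hab => by
    calc 2 = 2 ^ 1 := by norm_num
      _ ≤ 2 ^ (b - a) := Nat.pow_le_pow_right (by norm_num) (by omega)
  rcases lt_trichotomy s s' with h | h | h
  · have h3 : u / 2 ^ s' = u / 2 ^ s / 2 ^ (s' - s) := by
      rw [Nat.div_div_eq_div_mul, ← pow_add]; congr 2; omega
    have h4 : u / 2 ^ s / 2 ^ (s' - s) ≤ u / 2 ^ s / 2 := Nat.div_le_div_left (two h) (by norm_num)
    omega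
  · subst h; omega
  · have h3 : u / 2 ^ s = u / 2 ^ s' / 2 ^ (s - s') := by
      rw [Nat.div_div_eq_div_mul, ← pow_add]; congr 2; omega
    have h4 : u / 2 ^ s' / 2 ^ (s - s') ≤ u / 2 ^ s' / 2 := Nat.div_le_div_left (two h) (by norm_num)
    omega

theorem mono_congr : ∀ (t v : ℕ) (c c' : ℕ → Ix r), (∀ u, Sub v t u → c u = c' u) → mono t v c = mono t v c' := by
  intro t
  induction t with
  | zero =>
    intro v c c' h
    rw [mono, mono, h v (Sub.self _ _)]
  | succ t ih =>
    intro v c c' h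
    rw [mono, mono, ih (2 * v) c c' fun u hu => h u (sub_left hu), ih (2 * v + 1) c c' fun u hu => h u (sub_right hu)]
    have h1 : vr c v = vr c' v := by
      unfold vr
      rw [h v (Sub.self _ _), h (2 * v) (sub_left (Sub.self _ _)), h (2 * v + 1) (sub_right (Sub.self _ _))]
    rw [h1]

section

variable {K : Type} [CommSemiring K]

theorem tree_coeff_ne [Nontrivial K] [NoZeroDivisors K] (h0 : ∀ a b : K, a + b = 0 → a = 0 ∧ b = 0) :
    ∀ (t v : ℕ) (c : ℕ → Ix r), coeff (mono t v c) (tree K r t v (c v)) ≠ 0 := by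
  classical
  intro t
  induction t with
  | zero =>
    intro v c
    rw [mono, tree, coeff_X]
    simp
  | succ t ih =>
    intro v c
    rw [mono, tree, coeff_sum]
    refine sum_ne_zero_of_mem h0 _ _ (Finset.mem_univ (c (2 * v))) ?_
    rw [coeff_sum]
    refine sum_ne_zero_of_mem h0 _ _ (Finset.mem_univ (c (2 * v + 1))) ?_
    rw [← add_assoc]
    refine coeff_mul_ne h0 (coeff_mul_ne h0 ?_ (ih _ _)) (ih _ _)
    unfold vr
    rw [coeff_X]
    simp

theorem exists_ne_of_coeff_mul {D : Vr r →₀ ℕ} {p q : MvPolynomial (Vr r) K} (h : coeff D (p * q) ≠ 0) :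
    ∃ D1 D2, D1 + D2 = D ∧ coeff D1 p ≠ 0 ∧ coeff D2 q ≠ 0 := by
  classical
  rw [coeff_mul] at h
  obtain ⟨x, hx, hxne⟩ := Finset.exists_ne_zero_of_sum_ne_zero h
  exact ⟨x.1, x.2, Finset.HasAntidiagonal.mem_antidiagonal.1 hx, fun h => hxne (by rw [h, zero_mul]),
    fun h => hxne (by rw [h, mul_zero])⟩

theorem exists_label : ∀ (t v : ℕ) (i : Ix r) (D : Vr r →₀ ℕ), 1 ≤ v → coeff D (tree K r t v i) ≠ 0 →
    ∃ c : ℕ → Ix r, c v = i ∧ D = mono t v c := by
  classical
  intro t
  induction t with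
  | zero =>
    intro v i D _ h
    rw [tree, coeff_X] at h
    have h1 : Finsupp.single (v, i, 0, 0) 1 = D := by
      by_contra hne
      rw [if_neg hne] at h
      exact h rfl
    exact ⟨fun _ => i, rfl, by rw [mono, h1]⟩
  | succ t ih =>
    intro v i D hv h
    rw [tree, coeff_sum] at h
    obtain ⟨j, _, h⟩ := Finset.exists_ne_zero_of_sum_ne_zero h
    rw [coeff_sum] at h
    obtain ⟨k, _, h⟩ := Finset.exists_ne_zero_of_sum_ne_zero h
    obtain ⟨D1, D2, h1, h2, h3⟩ := exists_ne_of_coeff_mul h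
    obtain ⟨D3, D4, h4, h5, h6⟩ := exists_ne_of_coeff_mul h2
    obtain ⟨c2, h7, h8⟩ := ih (2 * v + 1) k D2 (by omega) h3
    obtain ⟨c1, h9, h10⟩ := ih (2 * v) j D4 (by omega) h6
    rw [coeff_X] at h5
    have h11 : Finsupp.single (v, i, j, k) 1 = D3 := by
      by_contra hne
      rw [if_neg hne] at h5
      exact h5 rfl
    let c : ℕ → Ix r := fun u => if u = v then i else if Sub (2 * v) t u then c1 u else c2 u
    have hcv : c v = i := if_pos rfl
    have hc1 : ∀ u, Sub (2 * v) t u → c u = c1 u := by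
      intro u hu
      have : u ≠ v := by have := hu.le; omega
      simp only [c]
      rw [if_neg this, if_pos hu]
    have hc2 : ∀ u, Sub (2 * v + 1) t u → c u = c2 u := by
      intro u hu
      have : u ≠ v := by have := hu.le; omega
      simp only [c]
      rw [if_neg this, if_neg fun h => sub_disj hv h hu]
    refine ⟨c, hcv, ?_⟩
    rw [mono, mono_congr t (2 * v) c c1 hc1, mono_congr t (2 * v + 1) c c2 hc2, ← h8, ← h10]
    have h12 : vr c v = (v, i, j, k) := by
      unfold vr
      rw [hcv, hc1 _ (Sub.self _ _), hc2 _ (Sub.self _ _), h9, h7]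
    rw [h12, h11, ← add_assoc, h4, h1]

end

theorem mem_mono {x : Vr r} : ∀ (t v : ℕ) (c : ℕ → Ix r), (∀ u, u / 2 ^ t = v → c (2 * u) = 0 ∧ c (2 * u + 1) = 0) →
    (mono t v c x ≠ 0 ↔ Sub v t x.1 ∧ x = vr c x.1) := by
  classical
  intro t
  induction t with
  | zero =>
    intro v c hc
    have h1 := hc v (by simp)
    have h2 : (v, c v, (0 : Ix r), (0 : Ix r)) = vr c v := by
      unfold vr
      rw [h1.1, h1.2]
    rw [mono, h2, Finsupp.single_apply]
    constructor
    · intro h
      have h3 : vr c v = x := by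
        by_contra hne
        rw [if_neg hne] at h
        exact h rfl
      subst h3
      exact ⟨Sub.self _ _, rfl⟩
    · rintro ⟨⟨s, hs, h3⟩, h4⟩
      have h5 : s = 0 := by omega
      subst h5
      have h6 : x.1 = v := by simpa using h3
      rw [h6] at h4
      rw [if_pos h4.symm]
      exact one_ne_zero
  | succ t ih =>
    intro v c hc
    have g1 := ih (2 * v) c (fun u hu => hc u (by rw [pow_succ, ← Nat.div_div_eq_div_mul, hu]; omega))
    have g2 := ih (2 * v + 1) c (fun u hu => hc u (by rw [pow_succ, ← Nat.div_div_eq_div_mul, hu]; omega))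
    rw [mono, Finsupp.add_apply, Finsupp.add_apply]
    constructor
    · intro h
      by_cases h1 : mono t (2 * v) c x ≠ 0
      · have := g1.1 h1
        exact ⟨sub_left this.1, this.2⟩
      by_cases h2 : mono t (2 * v + 1) c x ≠ 0
      · have := g2.1 h2
        exact ⟨sub_right this.1, this.2⟩
      push Not at h1 h2
      rw [h1, h2, Finsupp.single_apply] at h
      have h3 : vr c v = x := by
        by_contra hne
        rw [if_neg hne] at h
        exact h rfl
      subst h3
      exact ⟨Sub.self _ _, rfl⟩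
    · rintro ⟨h1, h2⟩
      rcases sub_cases h1 with h3 | h3 | h3
      · rw [h3] at h2
        rw [← h2, Finsupp.single_eq_same]
        omega
      · have := g1.2 ⟨h3, h2⟩
        omega
      · have := g2.2 ⟨h3, h2⟩
        omega

theorem mono_sub {x : Vr r} : ∀ (t v : ℕ) (c : ℕ → Ix r), mono t v c x ≠ 0 → Sub v t x.1 := by
  classical
  intro t
  induction t with
  | zero =>
    intro v c h
    rw [mono, Finsupp.single_apply] at h
    have h3 : (v, c v, (0 : Ix r), (0 : Ix r)) = x := by
      by_contra hne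
      rw [if_neg hne] at h
      exact h rfl
    rw [← h3]
    exact Sub.self _ _
  | succ t ih =>
    intro v c h
    rw [mono, Finsupp.add_apply, Finsupp.add_apply] at h
    by_cases h1 : mono t (2 * v) c x ≠ 0
    · exact sub_left (ih _ _ h1)
    by_cases h2 : mono t (2 * v + 1) c x ≠ 0
    · exact sub_right (ih _ _ h2)
    push Not at h1 h2
    rw [h1, h2, Finsupp.single_apply] at h
    have h3 : vr c v = x := by
      by_contra hne
      rw [if_neg hne] at h
      exact h rfl
    rw [← h3]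
    exact Sub.self _ _

theorem mono_le_one {x : Vr r} : ∀ (t v : ℕ) (c : ℕ → Ix r), 1 ≤ v → mono t v c x ≤ 1 := by
  classical
  intro t
  induction t with
  | zero =>
    intro v c _
    rw [mono, Finsupp.single_apply]
    split_ifs <;> omega
  | succ t ih =>
    intro v c hv
    rw [mono, Finsupp.add_apply, Finsupp.add_apply, Finsupp.single_apply]
    have g1 := ih (2 * v) c (by omega)
    have g2 := ih (2 * v + 1) c (by omega)
    by_cases h1 : mono t (2 * v) c x = 0
    · by_cases h2 : mono t (2 * v + 1) c x = 0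
      · rw [h1, h2]
        split_ifs <;> omega
      · have h3 := mono_sub _ _ _ h2
        have h4 : vr c v ≠ x := fun h => by
          have h5 := h3.le
          rw [← h] at h5
          simp only [vr] at h5
          omega
        rw [if_neg h4]
        omega
    · have h3 := mono_sub _ _ _ h1
      have h4 : vr c v ≠ x := fun h => by
        have h5 := h3.le
        rw [← h] at h5
        simp only [vr] at h5
        omega
      have h6 : mono t (2 * v + 1) c x = 0 := by
        by_contra h2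
        exact sub_disj hv h3 (mono_sub _ _ _ h2)
      rw [if_neg h4, h6]
      omega

theorem mono_degree : ∀ (t v : ℕ) (c : ℕ → Ix r), (mono t v c).degree + 1 = 2 ^ (t + 1) := by
  intro t
  induction t with
  | zero => intro v c; rw [mono]; simp
  | succ t ih =>
    intro v c
    have g1 := ih (2 * v) c
    have g2 := ih (2 * v + 1) c
    rw [mono, map_add, map_add, Finsupp.degree_single, pow_succ]
    omega

/-! ### Labellings of the edges of the whole tree -/

/-- the edges of the tree of height `h` -/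
abbrev Ed (h : ℕ) : Type := {u : ℕ // u ∈ Finset.Ico 2 (2 ^ (h + 1))}

/-- extension by zero -/
def ext {h : ℕ} (c : Ed h → Ix r) (u : ℕ) : Ix r := if hu : u ∈ Finset.Ico 2 (2 ^ (h + 1)) then c ⟨u, hu⟩ else 0

theorem sub_one_iff {h u : ℕ} : Sub 1 h u ↔ 1 ≤ u ∧ u < 2 ^ (h + 1) := by
  constructor
  · rintro ⟨s, hs, h1⟩
    rw [Nat.div_eq_iff (by positivity)] at h1
    have h2 : 2 ^ s ≤ 2 ^ h := Nat.pow_le_pow_right (by norm_num) hs
    have h3 : 1 ≤ 2 ^ s := Nat.one_le_two_pow
    rw [pow_succ]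
    omega
  · rintro ⟨h1, h2⟩
    have h3 := Nat.pow_log_le_self 2 (by omega : u ≠ 0)
    have h4 := Nat.lt_pow_succ_log_self (by norm_num : 1 < 2) u
    refine ⟨Nat.log 2 u, ?_, ?_⟩
    · have : 2 ^ Nat.log 2 u < 2 ^ (h + 1) := lt_of_le_of_lt h3 h2
      have := (Nat.pow_lt_pow_iff_right (by norm_num : 1 < 2)).1 this
      omega
    · rw [Nat.div_eq_iff (by positivity)]
      rw [pow_succ] at h4
      omega

theorem ext_leaf {h : ℕ} (c : Ed h → Ix r) (u : ℕ) (hu : u / 2 ^ h = 1) :
    ext c (2 * u) = 0 ∧ ext c (2 * u + 1) = 0 := by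
  rw [Nat.div_eq_iff (by positivity)] at hu
  unfold ext
  constructor
  · rw [dif_neg]
    rw [Finset.mem_Ico, pow_succ]
    omega
  · rw [dif_neg]
    rw [Finset.mem_Ico, pow_succ]
    omega

theorem ext_one {h : ℕ} (c : Ed h → Ix r) : ext c 1 = 0 := by
  unfold ext
  rw [dif_neg]
  rw [Finset.mem_Ico]
  omega

theorem mem_lab {h : ℕ} (c : Ed h → Ix r) (x : Vr r) :
    mono h 1 (ext c) x ≠ 0 ↔ (1 ≤ x.1 ∧ x.1 < 2 ^ (h + 1)) ∧ x = vr (ext c) x.1 := by
  rw [mem_mono h 1 (ext c) (ext_leaf c), sub_one_iff]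

theorem lab_inj {h : ℕ} {c c' : Ed h → Ix r} (he : mono h 1 (ext c) = mono h 1 (ext c')) : c = c' := by
  funext u
  have hu := Finset.mem_Ico.1 u.2
  have h1 : mono h 1 (ext c) (vr (ext c) u.1) ≠ 0 := (mem_lab c _).2 ⟨⟨by show 1 ≤ u.1; omega, hu.2⟩, rfl⟩
  rw [he, mem_lab] at h1
  have h2 := congrArg (fun x : Vr r => x.2.1) h1.2
  simp only [vr] at h2
  unfold ext at h2
  rw [dif_pos u.2, dif_pos u.2] at h2
  exact h2

theorem exists_lab {h : ℕ} (c : ℕ → Ix r) (hc : c 1 = 0) : ∃ c' : Ed h → Ix r, mono h 1 c = mono h 1 (ext c') := by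
  refine ⟨fun u => c u.1, mono_congr _ _ _ _ fun u hu => ?_⟩
  rw [sub_one_iff] at hu
  unfold ext
  by_cases h1 : u ∈ Finset.Ico 2 (2 ^ (h + 1))
  · rw [dif_pos h1]
  · rw [dif_neg h1]
    rw [Finset.mem_Ico] at h1
    have : u = 1 := by omega
    rw [this, hc]

end Pool.Agent.H86.Vws
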