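import Pool.Agent.H86.Vws.Cnt

/-!
# The numerical estimates
-/

set_option autoImplicit false

namespace Pool.Agent.H86.Vws

open Pool.Agent.H20VP MvPolynomial

theorem small_pow : ∀ h, 11 ≤ h → 8 * (h * (h + 1)) ≤ 2 ^ h := by
  intro h hh
  induction h, hh using Nat.le_induction with
  | base => norm_num
  | succ h hh ih =>
    rw [pow_succ]
    nlinarith

/-- the exponent -/
def Bd (r : ℕ) : ℕ := (4 * r * (4 * r) + 2) * (4 * r + 1) ^ (4 * r)

theorem bd_ge {r : ℕ} (hr : 1 ≤ r) : 18 ≤ Bd r := by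
  unfold Bd
  have h1 : 1 ≤ (4 * r + 1) ^ (4 * r) := Nat.one_le_pow _ _ (by omega)
  have h2 : 18 ≤ 4 * r * (4 * r) + 2 := by nlinarith
  calc 18 = 18 * 1 := by norm_num
    _ ≤ _ := Nat.mul_le_mul h2 h1

theorem bd_le {r : ℕ} (hr : 1 ≤ r) : 2 * (24 * Bd r * (2 * (8 * r + 1))) ≤ (8 * r) ^ (4 * r + 6) := by
  have h1 : (4 * r + 1) ^ (4 * r) ≤ (8 * r) ^ (4 * r) := Nat.pow_le_pow_left (by omega) _
  have h2 : 4 * r * (4 * r) + 2 ≤ 18 * r ^ 2 := by nlinarith
  have h3 : 2 * (8 * r + 1) ≤ 18 * r := by omega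
  have h4 : 2 * (24 * (18 * r ^ 2) * (18 * r)) ≤ (8 * r) ^ 6 := by
    have h5 : (8 * r) ^ 6 = 262144 * r ^ 6 := by ring
    have h6 : 2 * (24 * (18 * r ^ 2) * (18 * r)) = 15552 * r ^ 3 := by ring
    have h7 : r ^ 3 ≤ r ^ 6 := Nat.pow_le_pow_right hr (by norm_num)
    rw [h5, h6]
    omega
  unfold Bd
  calc 2 * (24 * ((4 * r * (4 * r) + 2) * (4 * r + 1) ^ (4 * r)) * (2 * (8 * r + 1)))
      ≤ 2 * (24 * ((18 * r ^ 2) * (8 * r) ^ (4 * r)) * (18 * r)) := by gcongr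
    _ = (8 * r) ^ (4 * r) * (2 * (24 * (18 * r ^ 2) * (18 * r))) := by ring
    _ ≤ (8 * r) ^ (4 * r) * (8 * r) ^ 6 := Nat.mul_le_mul_left _ h4
    _ = (8 * r) ^ (4 * r + 6) := by rw [← pow_add]

section

variable {K : Type} [CommSemiring K] [Nontrivial K] [NoZeroDivisors K]

theorem lower_h (h0 : ∀ a b : K, a + b = 0 → a = 0 ∧ b = 0) {h r S : ℕ} (hr : 1 ≤ r)
    {C : Circuit K (Vr (4 * h))} {g : MvPolynomial (Vr (4 * h)) K} (hC : C.Computes g) (hw : C.WeaklySkew)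
    (hs : ∀ D ∈ g.support, ∃ M ∈ (tree K (4 * h) h 1 0).support, M ≤ D)
    (G : Finset (Ed h → Ix (4 * h))) (hG : ∀ c ∈ G, ∃ D ∈ g.support, D.support = (mono h 1 (ext c)).support ∧
      D.degree ≤ r * (mono h 1 (ext c)).degree)
    (hGS : Fintype.card (Ed h → Ix (4 * h)) ≤ S * G.card) :
    2 ^ ((h + 1) * h) ≤ (S * C.size) ^ ((8 * r) ^ (4 * r + 6)) := by
  classical
  have hN : 0 < Fintype.card (Ed h → Ix (4 * h)) := Fintype.card_pos
  have hS : 1 ≤ S := by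
    rcases Nat.eq_zero_or_pos S with h1 | h1
    · rw [h1, zero_mul] at hGS; omega
    · exact h1
  have hGc : 1 ≤ G.card := by
    rcases Nat.eq_zero_or_pos G.card with h1 | h1
    · rw [h1, mul_zero] at hGS; omega
    · exact h1
  obtain ⟨c0, hc0⟩ := Finset.card_pos.1 hGc
  have hsize : 2 ^ h ≤ C.size := by
    obtain ⟨D, hD, hsupp, _⟩ := hG c0 hc0
    exact size_ge hC c0 ⟨D, hD, hsupp⟩
  have hB := bd_ge hr
  have hE := bd_le hr
  set E := (8 * r) ^ (4 * r + 6) with hEdef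
  rcases lt_or_ge h (12 * Bd r) with hh | hh
  · -- small heights
    have h1 : 12 * Bd r ≤ 2 * (24 * Bd r * (2 * (8 * r + 1))) := by nlinarith
    calc 2 ^ ((h + 1) * h) ≤ 2 ^ (h * E) := Nat.pow_le_pow_right (by norm_num) (by nlinarith)
      _ = (2 ^ h) ^ E := by rw [pow_mul]
      _ ≤ (S * C.size) ^ E := Nat.pow_le_pow_left (hsize.trans (by nlinarith)) _
  · set z0 := h / (6 * Bd r) with hz0
    have h6 : 0 < 6 * Bd r := by omega
    have hz : ∀ z, 8 ^ h ≤ 2 * (5 ^ h * 2 ^ ((4 * r * (4 * r) + 2) * ((4 * r + 1) ^ (4 * r) * (2 * z + 1)))) →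
        z0 ≤ z := by
      intro z hz
      have h1 := many_pairs (B := Bd r) rfl (by omega) hz
      rw [hz0]
      calc h / (6 * Bd r) ≤ (6 * Bd r * z) / (6 * Bd r) := Nat.div_le_div_right h1
        _ = z := Nat.mul_div_cancel_left z h6
    have h12 : h ≤ 12 * Bd r * z0 := by
      have h1 := Nat.lt_div_mul_add h6 (a := h)
      rw [← hz0] at h1
      have h2 : 1 ≤ z0 := by
        rw [hz0]
        exact (Nat.one_le_div_iff h6).2 (by omega)
      nlinarith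
    have hmain := main_count h0 hC hw hr hs hz G hG
    have h7 : 2 ^ (h + 1) * (2 ^ (h + 1) * (h + 1)) * (2 * h) ≤ 2 ^ (3 * h) := by
      have h8 := small_pow h (by omega)
      calc 2 ^ (h + 1) * (2 ^ (h + 1) * (h + 1)) * (2 * h) = 2 ^ (2 * h) * (8 * (h * (h + 1))) := by
            rw [pow_succ, two_mul h, pow_add]; ring
        _ ≤ 2 ^ (2 * h) * 2 ^ h := Nat.mul_le_mul_left _ h8
        _ = 2 ^ (3 * h) := by rw [← pow_add]; congr 1; ring
    -- divide by the number of the labellings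
    have h9 : (2 ^ (4 * h)) ^ z0 ≤ S * ((C.size + 1) ^ (2 * (8 * r + 1)) * (2 ^ (3 * h)) ^ z0) := by
      refine Nat.le_of_mul_le_mul_left ?_ hN
      calc Fintype.card (Ed h → Ix (4 * h)) * (2 ^ (4 * h)) ^ z0 ≤ S * G.card * (2 ^ (4 * h)) ^ z0 :=
            Nat.mul_le_mul_right _ hGS
        _ = S * (G.card * (2 ^ (4 * h)) ^ z0) := by ring
        _ ≤ S * (((C.size + 1) ^ (2 * (8 * r + 1)) * (2 ^ (h + 1) * (2 ^ (h + 1) * (h + 1))) ^ z0) *
              ((2 * h) ^ z0 * Fintype.card (Ed h → Ix (4 * h)))) := Nat.mul_le_mul_left _ hmain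
        _ = Fintype.card (Ed h → Ix (4 * h)) * (S * ((C.size + 1) ^ (2 * (8 * r + 1)) *
              (2 ^ (h + 1) * (2 ^ (h + 1) * (h + 1)) * (2 * h)) ^ z0)) := by
            rw [mul_pow (2 ^ (h + 1) * (2 ^ (h + 1) * (h + 1))) (2 * h) z0]; ring
        _ ≤ _ := by gcongr
    have h10 : 2 ^ (h * z0) ≤ S * (C.size + 1) ^ (2 * (8 * r + 1)) := by
      refine Nat.le_of_mul_le_mul_right ?_ (show 0 < (2 ^ (3 * h)) ^ z0 by positivity)
      calc 2 ^ (h * z0) * (2 ^ (3 * h)) ^ z0 = (2 ^ (4 * h)) ^ z0 := by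
            rw [← pow_mul, ← pow_mul, ← pow_add]; congr 1; ring
        _ ≤ _ := h9
        _ = _ := by ring
    have hs2 : 2 ≤ C.size := by
      refine le_trans ?_ hsize
      calc 2 = 2 ^ 1 := by norm_num
        _ ≤ 2 ^ h := Nat.pow_le_pow_right (by norm_num) (by omega)
    have h11 : S * (C.size + 1) ^ (2 * (8 * r + 1)) ≤ (S * C.size) ^ (2 * (2 * (8 * r + 1))) := by
      have h13 : C.size + 1 ≤ C.size ^ 2 := by nlinarith
      calc S * (C.size + 1) ^ (2 * (8 * r + 1)) ≤ S ^ (2 * (2 * (8 * r + 1))) * (C.size ^ 2) ^ (2 * (8 * r + 1)) := by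
            refine Nat.mul_le_mul ?_ (Nat.pow_le_pow_left h13 _)
            exact Nat.le_self_pow (by omega) S
        _ = (S * C.size) ^ (2 * (2 * (8 * r + 1))) := by rw [mul_pow, ← pow_mul]
    have h14 : 1 ≤ S * C.size := by nlinarith
    calc 2 ^ ((h + 1) * h) ≤ 2 ^ ((h * z0) * (12 * Bd r * 2)) := by
          refine Nat.pow_le_pow_right (by norm_num) ?_
          have : (h + 1) * h ≤ (2 * (12 * Bd r * z0)) * h := by
            refine Nat.mul_le_mul_right _ ?_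
            omega
          calc (h + 1) * h ≤ (2 * (12 * Bd r * z0)) * h := this
            _ = _ := by ring
      _ = (2 ^ (h * z0)) ^ (12 * Bd r * 2) := by rw [pow_mul]
      _ ≤ ((S * C.size) ^ (2 * (2 * (8 * r + 1)))) ^ (12 * Bd r * 2) := Nat.pow_le_pow_left (h10.trans h11) _
      _ = (S * C.size) ^ (2 * (24 * Bd r * (2 * (8 * r + 1)))) := by rw [← pow_mul]; congr 1; ring
      _ ≤ (S * C.size) ^ E := Nat.pow_le_pow_right h14 hE

end

end Pool.Agent.H86.Vws
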