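import Pool.Agent.H20VP.Val

/-!
# Weakly skew circuits as labelled graphs

A weakly skew circuit is turned into a directed graph on its nodes and one more vertex `none`, in which
the readings of variables along the paths from `none` to the output are the monomials of the polynomial.
-/

set_option autoImplicit false

namespace Pool.Agent.H86.Vws

open Pool.Agent.H20VP

variable {K X : Type}

/-- the two factors of a multiplication gate: `o` is evaluated first, `c` is the private factor -/
def Split (C : Circuit K X) (n o c : C.N) : Prop :=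
  ∃ a b, C.gate n = .mul a b ∧ ((C.Cut a b n ∧ c = a ∧ o = b) ∨ (¬ C.Cut a b n ∧ c = b ∧ o = a))

theorem Split.cut {C : Circuit K X} (hw : C.WeaklySkew) {n o c : C.N} (h : Split C n o c) : C.Cut c o n := by
  obtain ⟨a, b, hg, h | h⟩ := h
  · obtain ⟨h1, rfl, rfl⟩ := h; exact h1
  · obtain ⟨h1, rfl, rfl⟩ := h
    exact (hw n o c hg).resolve_left h1

theorem Split.uniq {C : Circuit K X} {n o c o' c' : C.N} (h : Split C n o c) (h' : Split C n o' c') :
    o = o' ∧ c = c' := by
  obtain ⟨a, b, hg, h⟩ := h
  obtain ⟨a', b', hg', h'⟩ := h'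
  rw [hg] at hg'
  simp only [Gate.mul.injEq] at hg'
  obtain ⟨rfl, rfl⟩ := hg'
  rcases h with h | h <;> rcases h' with h' | h'
  · obtain ⟨_, rfl, rfl⟩ := h; obtain ⟨_, rfl, rfl⟩ := h'; exact ⟨rfl, rfl⟩
  · exact absurd h.1 h'.1
  · exact absurd h'.1 h.1
  · obtain ⟨_, rfl, rfl⟩ := h; obtain ⟨_, rfl, rfl⟩ := h'; exact ⟨rfl, rfl⟩

theorem Split.gate {C : Circuit K X} {n o c : C.N} (h : Split C n o c) :
    C.gate n = .mul o c ∨ C.gate n = .mul c o := by
  obtain ⟨a, b, hg, h | h⟩ := h
  · obtain ⟨_, rfl, rfl⟩ := h; exact Or.inr hg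
  · obtain ⟨_, rfl, rfl⟩ := h; exact Or.inl hg

theorem Split.edge_c {C : Circuit K X} {n o c : C.N} (h : Split C n o c) : C.Edge c n := by
  unfold Circuit.Edge
  rcases h.gate with h | h <;> rw [h] <;> simp [Gate.preds]

theorem Split.edge_o {C : Circuit K X} {n o c : C.N} (h : Split C n o c) : C.Edge o n := by
  unfold Circuit.Edge
  rcases h.gate with h | h <;> rw [h] <;> simp [Gate.preds]

theorem exists_split (C : Circuit K X) {n a b : C.N} (h : C.gate n = .mul a b) :
    Split C n b a ∨ Split C n a b := by
  by_cases hc : C.Cut a b n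
  · exact Or.inl ⟨a, b, h, Or.inl ⟨hc, rfl, rfl⟩⟩
  · exact Or.inr ⟨a, b, h, Or.inr ⟨hc, rfl, rfl⟩⟩

/-- the edge `p → n` is not the edge of a private factor -/
def Opn (C : Circuit K X) (p n : C.N) : Prop :=
  (∃ l, C.gate n = .add l ∧ p ∈ l) ∨ ∃ c, Split C n p c

theorem Opn.edge {C : Circuit K X} {p n : C.N} (h : Opn C p n) : C.Edge p n := by
  rcases h with ⟨l, h, hp⟩ | ⟨c, h⟩
  · unfold Circuit.Edge; rw [h]; exact hp
  · exact h.edge_o

theorem opn_or_split {C : Circuit K X} {p n : C.N} (h : C.Edge p n) : Opn C p n ∨ ∃ o, Split C n o p := by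
  unfold Circuit.Edge at h
  cases hg : C.gate n with
  | var x => rw [hg] at h; simp [Gate.preds] at h
  | const c => rw [hg] at h; simp [Gate.preds] at h
  | add l => rw [hg] at h; exact Or.inl (Or.inl ⟨l, hg, h⟩)
  | mul a b =>
    rw [hg] at h
    simp only [Gate.preds, List.mem_cons, List.not_mem_nil, or_false] at h
    rcases exists_split C hg with h1 | h1
    · rcases h with rfl | rfl
      · exact Or.inr ⟨_, h1⟩
      · exact Or.inl (Or.inr ⟨_, h1⟩)
    · rcases h with rfl | rfl
      · exact Or.inl (Or.inr ⟨_, h1⟩)
      · exact Or.inr ⟨_, h1⟩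

theorem not_opn_split {C : Circuit K X} (hw : C.WeaklySkew) {p n o : C.N} (h : Opn C p n) (h' : Split C n o p) :
    False := by
  rcases h with ⟨l, h, _⟩ | ⟨c, h⟩
  · rcases h'.gate with h2 | h2 <;> rw [h] at h2 <;> simp at h2
  · have h3 := h.uniq h'
    exact (h'.cut hw).1 h3.1

/-- a node is not below a predecessor -/
theorem not_below {C : Circuit K X} {a n : C.N} (h : C.Edge a n) : ¬ C.Below n a := fun h' =>
  C.acyclic n (Relation.TransGen.tail' h' h)

/-- an open edge does not leave the sub-circuit of a private factor -/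
theorem Opn.stay {C : Circuit K X} (hw : C.WeaklySkew) {p q n o c : C.N} (hs : Split C n o c) (h : Opn C p q)
    (hp : C.Below p c) : C.Below q c := by
  by_contra hq
  have h1 := (hs.cut hw).2 p q hp hq h.edge
  obtain ⟨rfl, rfl⟩ := h1
  exact not_opn_split hw h hs

def OpnStar (C : Circuit K X) (p q : C.N) : Prop := Relation.ReflTransGen (Opn C) p q

theorem OpnStar.stay {C : Circuit K X} (hw : C.WeaklySkew) {p q n o c : C.N} (hs : Split C n o c)
    (h : OpnStar C p q) (hp : C.Below p c) : C.Below q c := by
  induction h with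
  | refl => exact hp
  | tail _ h ih => exact h.stay hw hs ih

theorem OpnStar.up {C : Circuit K X} (hw : C.WeaklySkew) {p q n : C.N} (h : OpnStar C p q) (hpn : C.Below p n)
    (hnq : C.Below n q) : OpnStar C n q := by
  revert hpn
  refine Relation.ReflTransGen.head_induction_on
    (motive := fun n _ => C.Below p n → OpnStar C n q) hnq ?_ ?_
  · intro _; exact Relation.ReflTransGen.refl
  · intro n n' hnn' hn'q ih hpn
    have h1 := ih (hpn.tail hnn')
    rcases opn_or_split hnn' with h2 | ⟨o, h2⟩
    · exact Relation.ReflTransGen.head h2 h1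
    · exfalso
      have h3 := h.stay hw h2 hpn
      exact C.acyclic n (Relation.TransGen.head' hnn' (hn'q.trans h3))

/-- the evaluation of `n` may begin at `s` -/
def Src (C : Circuit K X) (s : Option C.N) (p : C.N) : Prop :=
  (s = none ∧ OpnStar C p C.out) ∨ ∃ n o c, s = some o ∧ Split C n o c ∧ OpnStar C p c

theorem below_out (C : Circuit K X) (n : C.N) : C.Below n C.out := by
  classical
  have := C.fin
  -- the reversed relation is well founded
  have hwf : WellFounded (Function.swap C.Edge) := by
    have h : WellFounded (Relation.TransGen (Function.swap C.Edge)) := by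
      have h1 : Std.Irrefl (Relation.TransGen (Function.swap C.Edge)) := ⟨fun a ha => by
        have h2 := Relation.transGen_swap.1 ha
        exact C.acyclic a h2⟩
      exact Finite.wellFounded_of_trans_of_irrefl _
    exact Subrelation.wf (fun {a b} hab => Relation.TransGen.single hab) h
  induction n using hwf.induction with
  | _ n ih =>
    by_cases h : n = C.out
    · rw [h]; exact Relation.ReflTransGen.refl
    · have h1 : ¬ ∀ m, n ∉ (C.gate m).preds := fun h2 => h ((C.sink n).1 h2)
      push Not at h1
      obtain ⟨m, hm⟩ := h1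
      exact Relation.ReflTransGen.head hm (ih m hm)

theorem Src.out (C : Circuit K X) : Src C none C.out := Or.inl ⟨rfl, Relation.ReflTransGen.refl⟩

theorem Src.down {C : Circuit K X} {s : Option C.N} {p n : C.N} (h : Src C s n) (hp : Opn C p n) : Src C s p := by
  rcases h with ⟨h1, h2⟩ | ⟨m, o, c, h1, h2, h3⟩
  · exact Or.inl ⟨h1, Relation.ReflTransGen.head hp h2⟩
  · exact Or.inr ⟨m, o, c, h1, h2, Relation.ReflTransGen.head hp h3⟩

theorem Src.priv {C : Circuit K X} {n o c : C.N} (h : Split C n o c) : Src C (some o) c :=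
  Or.inr ⟨n, o, c, rfl, h, Relation.ReflTransGen.refl⟩

theorem Src.up {C : Circuit K X} (hw : C.WeaklySkew) {s : Option C.N} {p n : C.N} (h : Src C s p)
    (hp : Opn C p n) : Src C s n := by
  rcases h with ⟨h1, h2⟩ | ⟨m, o, c, h1, h2, h3⟩
  · exact Or.inl ⟨h1, OpnStar.up hw h2 (Relation.ReflTransGen.single hp.edge) (below_out C n)⟩
  · refine Or.inr ⟨m, o, c, h1, h2, OpnStar.up hw h3 (Relation.ReflTransGen.single hp.edge) ?_⟩
    refine hp.stay hw h2 ?_
    exact Relation.ReflTransGen.mono (fun _ _ h => Opn.edge h) _ _ h3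

/-- no open edge starts at a private factor -/
theorem not_opn_priv {C : Circuit K X} (hw : C.WeaklySkew) {n o c y : C.N} (h : Split C n o c) (h' : Opn C c y) :
    False := by
  have h1 : ¬ C.Below y c := not_below h'.edge
  have h2 := (h.cut hw).2 c y Relation.ReflTransGen.refl h1 h'.edge
  obtain ⟨_, rfl⟩ := h2
  exact not_opn_split hw h' h

theorem OpnStar.eq_priv {C : Circuit K X} (hw : C.WeaklySkew) {n o c q : C.N} (h : Split C n o c)
    (h' : OpnStar C c q) : c = q := by
  rcases Relation.ReflTransGen.cases_head h' with h1 | ⟨y, h1, _⟩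
  · exact h1
  · exact (not_opn_priv hw h h1).elim

theorem not_edge_out (C : Circuit K X) (m : C.N) : ¬ C.Edge C.out m := (C.sink C.out).2 rfl m

theorem Src.of_priv {C : Circuit K X} (hw : C.WeaklySkew) {s : Option C.N} {n o c : C.N} (h : Src C s c)
    (hs : Split C n o c) : s = some o := by
  rcases h with ⟨_, h2⟩ | ⟨m, o', c', h1, h2, h3⟩
  · exfalso
    have h4 := h2.eq_priv hw hs
    have h5 := hs.edge_c
    rw [h4] at h5
    exact not_edge_out C _ h5
  · have h4 := h3.eq_priv hw hs
    subst h4
    have h5 : ¬ C.Below m c := not_below h2.edge_c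
    have h6 := (hs.cut hw).2 c m Relation.ReflTransGen.refl h5 h2.edge_c
    obtain ⟨_, rfl⟩ := h6
    rw [h1, (h2.uniq hs).1]

theorem Src.of_out {C : Circuit K X} {s : Option C.N} (h : Src C s C.out) : s = none := by
  rcases h with ⟨h1, _⟩ | ⟨m, o', c', h1, h2, h3⟩
  · exact h1
  · exfalso
    rcases Relation.ReflTransGen.cases_head h3 with h4 | ⟨y, h4, _⟩
    · have h5 := h2.edge_c
      rw [← h4] at h5
      exact not_edge_out C _ h5
    · exact not_edge_out C _ h4.edge

/-- one step of an evaluation, and the variables which are read in this step -/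
inductive Step [Zero K] (C : Circuit K X) : Option C.N → Option C.N → List X → Prop
  | var {s : Option C.N} {n : C.N} {x : X} : Src C s n → C.gate n = .var x → Step C s (some n) [x]
  | const {s : Option C.N} {n : C.N} {c : K} : Src C s n → C.gate n = .const c → c ≠ 0 → Step C s (some n) []
  | add {n p : C.N} {l : List C.N} : C.gate n = .add l → p ∈ l → Step C (some p) (some n) []
  | cls {n o c : C.N} : Split C n o c → Step C (some c) (some n) []

/-- a path, and the variables which are read along this path -/
inductive Reach [Zero K] (C : Circuit K X) (s : Option C.N) : Option C.N → List X → Prop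
  | refl : Reach C s s []
  | tail {t u : Option C.N} {l l' : List X} : Reach C s t l → Step C t u l' → Reach C s u (l ++ l')

theorem Reach.trans [Zero K] {C : Circuit K X} {s t u : Option C.N} {l l' : List X} (h : Reach C s t l)
    (h' : Reach C t u l') : Reach C s u (l ++ l') := by
  induction h' with
  | refl => rw [List.append_nil]; exact h
  | tail _ h2 ih => rw [← List.append_assoc]; exact ih.tail h2

theorem Step.short [Zero K] {C : Circuit K X} {s t : Option C.N} {l : List X} (h : Step C s t l) :
    l = [] ∨ ∃ x, l = [x] := by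
  cases h with
  | var _ _ => exact Or.inr ⟨_, rfl⟩
  | const _ _ _ => exact Or.inl rfl
  | add _ _ => exact Or.inl rfl
  | cls _ => exact Or.inl rfl

theorem Reach.split [Zero K] {C : Circuit K X} {s u : Option C.N} {L : List X} (h : Reach C s u L) :
    ∀ l l' : List X, L = l ++ l' → ∃ t, Reach C s t l ∧ Reach C t u l' := by
  induction h with
  | refl =>
    intro l l' h
    have h1 := List.append_eq_nil_iff.1 h.symm
    rw [h1.1, h1.2]
    exact ⟨s, Reach.refl, Reach.refl⟩
  | @tail t u L0 L1 h0 h1 ih =>
    intro l l' h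
    rcases h1.short with rfl | ⟨x, rfl⟩
    · rw [List.append_nil] at h
      obtain ⟨t', h2, h3⟩ := ih l l' h
      refine ⟨t', h2, ?_⟩
      have := h3.tail h1
      rwa [List.append_nil] at this
    · rcases List.eq_nil_or_concat l' with rfl | ⟨l2, y, rfl⟩
      · rw [List.append_nil] at h
        refine ⟨u, ?_, Reach.refl⟩
        rw [← h]
        exact h0.tail h1
      · rw [List.concat_eq_append, ← List.append_assoc] at h
        have h2 := List.append_inj_left' h rfl
        have h3 := List.append_inj_right' h rfl
        obtain ⟨t', h4, h5⟩ := ih l l2 h2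
        refine ⟨t', h4, ?_⟩
        rw [List.concat_eq_append, ← h3]
        exact h5.tail h1

/-- the monomial of a list of variables -/
noncomputable def mon (l : List X) : X →₀ ℕ := (l.map fun x => Finsupp.single x 1).sum

theorem mon_nil : mon ([] : List X) = 0 := rfl

theorem mon_append (l l' : List X) : mon (l ++ l') = mon l + mon l' := by
  simp [mon]

theorem mon_singleton (x : X) : mon [x] = Finsupp.single x 1 := by
  simp [mon]

theorem mon_pos (l : List X) (x : X) : mon l x ≠ 0 ↔ x ∈ l := by
  classical
  induction l with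
  | nil => simp [mon]
  | cons y l ih =>
    rw [show y :: l = [y] ++ l from rfl, mon_append, mon_singleton, Finsupp.add_apply, List.mem_append,
      ← ih, Finsupp.single_apply]
    by_cases h : y = x
    · rw [if_pos h]
      simp [h]
    · rw [if_neg h]
      simp [Ne.symm h]

theorem mon_degree (l : List X) : (mon l).degree = l.length := by
  induction l with
  | nil => simp [mon]
  | cons y l ih =>
    rw [show y :: l = [y] ++ l from rfl, mon_append, mon_singleton, map_add, ih]
    simp [add_comm]

section

variable [CommSemiring K]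

open MvPolynomial

theorem coeff_listSum {D : X →₀ ℕ} (l : List (MvPolynomial X K)) (h : coeff D l.sum ≠ 0) :
    ∃ p ∈ l, coeff D p ≠ 0 := by
  induction l with
  | nil => simp at h
  | cons p l ih =>
    rw [List.sum_cons, coeff_add] at h
    by_cases hp : coeff D p = 0
    · rw [hp, zero_add] at h
      obtain ⟨p', hp', h'⟩ := ih h
      exact ⟨p', List.mem_cons_of_mem _ hp', h'⟩
    · exact ⟨p, List.mem_cons_self, hp⟩

/-- every monomial is read along a path -/
theorem complete {C : Circuit K X} {φ : C.N → MvPolynomial X K} (hφ : ∀ n, φ n = (C.gate n).value φ) (n : C.N) :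
    ∀ (D : X →₀ ℕ), coeff D (φ n) ≠ 0 → ∀ s, Src C s n → ∃ l, Reach C s (some n) l ∧ mon l = D := by
  classical
  induction n using C.wf.induction with
  | _ n ih =>
    intro D hD s hs
    rw [hφ n] at hD
    cases hg : C.gate n with
    | var x =>
      rw [hg] at hD
      simp only [Gate.value, coeff_X] at hD
      have h3 : Finsupp.single x 1 = D := by
        by_contra hne
        rw [if_neg hne] at hD
        exact hD rfl
      refine ⟨[] ++ [x], Reach.refl.tail (Step.var hs hg), ?_⟩
      rw [List.nil_append, mon_singleton, h3]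
    | const a =>
      rw [hg] at hD
      simp only [Gate.value, coeff_C] at hD
      have h3 : 0 = D := by
        by_contra hne
        rw [if_neg hne] at hD
        exact hD rfl
      rw [if_pos h3] at hD
      refine ⟨[] ++ [], Reach.refl.tail (Step.const hs hg hD), ?_⟩
      rw [List.nil_append, mon_nil, h3]
    | add l =>
      rw [hg] at hD
      simp only [Gate.value] at hD
      obtain ⟨p, hp, hpD⟩ := coeff_listSum _ hD
      rw [List.mem_map] at hp
      obtain ⟨m, hm, rfl⟩ := hp
      have ho : Opn C m n := Or.inl ⟨l, hg, hm⟩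
      obtain ⟨l', h1, h2⟩ := ih m ho.edge D hpD s (hs.down ho)
      refine ⟨l' ++ [], h1.tail (Step.add hg hm), ?_⟩
      rw [List.append_nil, h2]
    | mul a b =>
      have key : ∀ o c, Split C n o c → ∃ l, Reach C s (some n) l ∧ mon l = D := by
        intro o c hsp
        have hD' : coeff D (φ o * φ c) ≠ 0 := by
          rcases hsp.gate with h | h
          · rw [h] at hD; exact hD
          · rw [h] at hD; rw [mul_comm]; exact hD
        rw [coeff_mul] at hD'
        obtain ⟨x, hx, hxne⟩ := Finset.exists_ne_zero_of_sum_ne_zero hD'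
        replace hx : x.1 + x.2 = D := Finset.HasAntidiagonal.mem_antidiagonal.1 hx
        have hx1 : coeff x.1 (φ o) ≠ 0 := fun h => hxne (by rw [h, zero_mul])
        have hx2 : coeff x.2 (φ c) ≠ 0 := fun h => hxne (by rw [h, mul_zero])
        obtain ⟨l1, h1, h1'⟩ := ih o hsp.edge_o x.1 hx1 s (hs.down (Or.inr ⟨c, hsp⟩))
        obtain ⟨l2, h2, h2'⟩ := ih c hsp.edge_c x.2 hx2 (some o) (Src.priv hsp)
        refine ⟨(l1 ++ l2) ++ [], (h1.trans h2).tail (Step.cls hsp), ?_⟩
        rw [List.append_nil, mon_append, h1', h2', hx]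
      rcases exists_split C hg with h | h
      · exact key _ _ h
      · exact key _ _ h

/-- the nested values along a path -/
inductive Nest (C : Circuit K X) (φ : C.N → MvPolynomial X K) : Option C.N → List X → Prop
  | nil : Nest C φ none []
  | cons {s : Option C.N} {n : C.N} {l l' : List X} : Nest C φ s l → Src C s n → coeff (mon l') (φ n) ≠ 0 →
      Nest C φ (some n) (l ++ l')

theorem listSum_coeff (h0 : ∀ a b : K, a + b = 0 → a = 0 ∧ b = 0) {D : X →₀ ℕ} (l : List (MvPolynomial X K))
    {p : MvPolynomial X K} (hp : p ∈ l) (h : coeff D p ≠ 0) : coeff D l.sum ≠ 0 := by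
  induction l with
  | nil => simp at hp
  | cons q l ih =>
    rw [List.sum_cons, coeff_add]
    intro h1
    have h2 := h0 _ _ h1
    rcases List.mem_cons.1 hp with rfl | hp
    · exact h h2.1
    · exact ih hp h2.2

theorem sum_ne_zero_of_mem (h0 : ∀ a b : K, a + b = 0 → a = 0 ∧ b = 0) {ι : Type*} (s : Finset ι) (f : ι → K)
    {i : ι} (hi : i ∈ s) (h : f i ≠ 0) : ∑ j ∈ s, f j ≠ 0 := by
  classical
  rw [← Finset.add_sum_erase s f hi]
  intro h1
  exact h (h0 _ _ h1).1

theorem coeff_mul_ne [NoZeroDivisors K] (h0 : ∀ a b : K, a + b = 0 → a = 0 ∧ b = 0) {D D' : X →₀ ℕ}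
    {p q : MvPolynomial X K} (hp : coeff D p ≠ 0) (hq : coeff D' q ≠ 0) : coeff (D + D') (p * q) ≠ 0 := by
  classical
  rw [coeff_mul]
  refine sum_ne_zero_of_mem h0 _ _ (i := (D, D')) ?_ (mul_ne_zero hp hq)
  rw [Finset.HasAntidiagonal.mem_antidiagonal]

theorem nest_step [Nontrivial K] [NoZeroDivisors K] (h0 : ∀ a b : K, a + b = 0 → a = 0 ∧ b = 0) {C : Circuit K X}
    (hw : C.WeaklySkew) {φ : C.N → MvPolynomial X K} (hφ : ∀ n, φ n = (C.gate n).value φ) {s t : Option C.N}
    {l l' : List X} (h : Nest C φ s l) (h' : Step C s t l') : Nest C φ t (l ++ l') := by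
  classical
  cases h' with
  | @var _ n x hs hg =>
    refine Nest.cons h hs ?_
    rw [hφ n, hg, mon_singleton]
    simp [Gate.value]
  | @const _ n c hs hg hc =>
    refine Nest.cons h hs ?_
    rw [hφ n, hg, mon_nil]
    simp [Gate.value, hc]
  | @add n p l2 hg hp =>
    rw [List.append_nil]
    have ho : Opn C p n := Or.inl ⟨l2, hg, hp⟩
    cases h with
    | @cons s' _ l1 l3 hn hs hc =>
      refine Nest.cons hn (hs.up hw ho) ?_
      rw [hφ n, hg]
      exact listSum_coeff h0 _ (List.mem_map.2 ⟨p, hp, rfl⟩) hc
  | @cls n o c hsp =>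
    rw [List.append_nil]
    cases h with
    | @cons s' _ l1 l3 hn hs hc =>
      have h1 := hs.of_priv hw hsp
      subst h1
      cases hn with
      | @cons s'' _ l4 l5 hn' hs' hc' =>
        rw [List.append_assoc]
        refine Nest.cons hn' (hs'.up hw (Or.inr ⟨c, hsp⟩)) ?_
        rw [hφ n, mon_append]
        rcases hsp.gate with h | h
        · rw [h]; exact coeff_mul_ne h0 hc' hc
        · rw [h]
          simp only [Gate.value]
          rw [mul_comm]
          exact coeff_mul_ne h0 hc' hc

theorem nest_reach [Nontrivial K] [NoZeroDivisors K] (h0 : ∀ a b : K, a + b = 0 → a = 0 ∧ b = 0)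
    {C : Circuit K X} (hw : C.WeaklySkew) {φ : C.N → MvPolynomial X K} (hφ : ∀ n, φ n = (C.gate n).value φ)
    {t : Option C.N} {l : List X} (h : Reach C none t l) : Nest C φ t l := by
  induction h with
  | refl => exact Nest.nil
  | tail _ h2 ih => exact nest_step h0 hw hφ ih h2

/-- the readings along every path from `none` to the output are a monomial of the polynomial -/
theorem sound [Nontrivial K] [NoZeroDivisors K] (h0 : ∀ a b : K, a + b = 0 → a = 0 ∧ b = 0) {C : Circuit K X}
    (hw : C.WeaklySkew) {φ : C.N → MvPolynomial X K} (hφ : ∀ n, φ n = (C.gate n).value φ) {l : List X}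
    (h : Reach C none (some C.out) l) : coeff (mon l) (φ C.out) ≠ 0 := by
  have h1 := nest_reach h0 hw hφ h
  cases h1 with
  | @cons s _ l1 l2 hn hs hc =>
    have h2 := hs.of_out
    subst h2
    cases hn
    rwa [List.nil_append]

end

/-! ### Exchange -/

/-- a path which passes through given points between its pieces -/
inductive Thru [Zero K] (C : Circuit K X) : Option C.N → List (Option C.N) → List (List X) → Prop
  | nil {s : Option C.N} : Thru C s [] []
  | cons {s t : Option C.N} {ts : List (Option C.N)} {l : List X} {ls : List (List X)} :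
      Reach C s t l → Thru C t ts ls → Thru C s (t :: ts) (l :: ls)

theorem exists_thru [Zero K] {C : Circuit K X} (ls : List (List X)) : ∀ (s t : Option C.N),
    Reach C s t ls.flatten → ls ≠ [] → ∃ ts, Thru C s ts ls ∧ ts.length = ls.length ∧ ts.getLastD s = t := by
  induction ls with
  | nil => intro s t _ h; exact absurd rfl h
  | cons l ls ih =>
    intro s t h _
    rcases eq_or_ne ls [] with rfl | hne
    · refine ⟨[t], Thru.cons ?_ Thru.nil, rfl, rfl⟩
      simpa using h
    · rw [List.flatten_cons] at h
      obtain ⟨u, h1, h2⟩ := h.split _ _ rfl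
      obtain ⟨ts, h3, h4, h5⟩ := ih u t h2 hne
      refine ⟨u :: ts, Thru.cons h1 h3, by rw [List.length_cons, List.length_cons, h4], ?_⟩
      rw [List.getLastD_cons, h5]

/-- take alternately a piece of the first and a piece of the second list; `b = true`: begin with the first -/
def mix : Bool → List (List X) → List (List X) → List (List X)
  | true, l :: ls, _ :: ls' => l :: mix false ls ls'
  | false, _ :: ls, l' :: ls' => l' :: mix true ls ls'
  | _, _, _ => []

theorem thru_mix [Zero K] {C : Circuit K X} {s : Option C.N} {ts : List (Option C.N)} {ls : List (List X)}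
    (h : Thru C s ts ls) : ∀ (b : Bool) (ls' : List (List X)), Thru C s ts ls' → Thru C s ts (mix b ls ls') := by
  induction h with
  | nil => intro b ls' h'; cases h'; cases b <;> exact Thru.nil
  | cons h1 _ ih =>
    intro b ls' h'
    cases h' with
    | cons h3 h4 =>
      cases b
      · exact Thru.cons h3 (ih true _ h4)
      · exact Thru.cons h1 (ih false _ h4)

theorem thru_reach [Zero K] {C : Circuit K X} {s : Option C.N} {ts : List (Option C.N)} {ls : List (List X)}
    (h : Thru C s ts ls) : Reach C s (ts.getLastD s) ls.flatten := by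
  induction h with
  | nil => exact Reach.refl
  | @cons s t ts l ls h1 _ ih =>
    rw [List.flatten_cons]
    rw [List.getLastD_cons]
    exact h1.trans ih

/-- The members of the mixture: a reading at a piece with an even number of the first list, or with an odd number
of the second list. -/
theorem mem_mix {x : X} : ∀ (b : Bool) (ls ls' : List (List X)), x ∈ (mix b ls ls').flatten →
    (∃ i, ∃ l, ls[i]? = some l ∧ x ∈ l ∧ (i % 2 = 0 ↔ b = true)) ∨
      (∃ i, ∃ l, ls'[i]? = some l ∧ x ∈ l ∧ (i % 2 = 0 ↔ b = false)) := by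
  intro b ls
  induction ls generalizing b with
  | nil => intro ls' h; cases b <;> simp [mix] at h
  | cons l ls ih =>
    intro ls' h
    cases ls' with
    | nil => cases b <;> simp [mix] at h
    | cons l' ls' =>
      cases b with
      | false =>
        simp only [mix, List.flatten_cons, List.mem_append] at h
        rcases h with h | h
        · exact Or.inr ⟨0, l', rfl, h, by simp⟩
        · rcases ih true ls' h with ⟨i, l2, h1, h2, h3⟩ | ⟨i, l2, h1, h2, h3⟩
          · refine Or.inl ⟨i + 1, l2, by simpa using h1, h2, ?_⟩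
            simp only [iff_true, Bool.false_eq_true, iff_false] at h3 ⊢
            omega
          · refine Or.inr ⟨i + 1, l2, by simpa using h1, h2, ?_⟩
            simp only [iff_true, Bool.true_eq_false, iff_false] at h3 ⊢
            omega
      | true =>
        simp only [mix, List.flatten_cons, List.mem_append] at h
        rcases h with h | h
        · exact Or.inl ⟨0, l, rfl, h, by simp⟩
        · rcases ih false ls' h with ⟨i, l2, h1, h2, h3⟩ | ⟨i, l2, h1, h2, h3⟩
          · refine Or.inl ⟨i + 1, l2, by simpa using h1, h2, ?_⟩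
            simp only [iff_true, Bool.false_eq_true, iff_false] at h3 ⊢
            omega
          · refine Or.inr ⟨i + 1, l2, by simpa using h1, h2, ?_⟩
            simp only [iff_true, Bool.true_eq_false, iff_false] at h3 ⊢
            omega

end Pool.Agent.H86.Vws
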