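import Mathlib

/-!
# Separating the leaves of a binary tree which are read several times

Every leaf of a complete binary tree is read at (at most) `Q` times. It is shown that there are two
disjoint sets of times, the union of `O(Q)` intervals each, and many pairs of leaves with disjoint
connecting paths in the tree, such that the first leaf of each pair is read only in the first set and the
second leaf only in the second set.
-/

set_option autoImplicit false

namespace Pool.Agent.H86.Vws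

open Finset

/-- Two families of numbers without common members: after halving both, one of them is below the other. -/
theorem sep_one {f g : ℕ → ℕ} (F G : Finset ℕ) (hne : ∀ x ∈ F, ∀ y ∈ G, f x ≠ g y) :
    ∃ F' ⊆ F, ∃ G' ⊆ G, F.card ≤ 2 * F'.card ∧ G.card ≤ 2 * G'.card ∧
      ((∀ x ∈ F', ∀ y ∈ G', f x < g y) ∨ (∀ x ∈ F', ∀ y ∈ G', g y < f x)) := by
  classical
  have hex : ∃ θ, F.card ≤ 2 * (F.filter fun x => f x < θ).card ∨ G.card ≤ 2 * (G.filter fun x => g x < θ).card := by
    refine ⟨F.sup f + 1, Or.inl ?_⟩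
    have h1 : (F.filter fun x => f x < F.sup f + 1) = F := by
      refine Finset.filter_true_of_mem fun x hx => ?_
      have := Finset.le_sup (f := f) hx
      omega
    rw [h1]
    omega
  have hθ := Nat.find_spec hex
  have hmin := fun m (hm : m < Nat.find hex) => Nat.find_min hex hm
  generalize Nat.find hex = θ at hθ hmin
  have hsplitF := Finset.card_filter_add_card_filter_not (s := F) (fun x => f x < θ)
  have hsplitG := Finset.card_filter_add_card_filter_not (s := G) (fun x => g x < θ)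
  -- not both
  have hboth : F.card ≤ 2 * (F.filter fun x => f x < θ).card → G.card ≤ 2 * (G.filter fun x => g x < θ).card →
      F.card = 0 ∨ G.card = 0 := by
    intro h1 h2
    by_contra hcon
    push Not at hcon
    rcases θ with _ | θ
    · simp only [not_lt_zero, Finset.filter_false, Finset.card_empty, mul_zero, Nat.le_zero] at h1
      exact hcon.1 h1
    · have h3 := hmin θ (Nat.lt_succ_self θ)
      push Not at h3
      have hx : ∃ x ∈ F, f x = θ := by
        by_contra hx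
        push Not at hx
        have h4 : (F.filter fun x => f x < θ + 1) = F.filter fun x => f x < θ := by
          refine Finset.filter_congr fun x hx' => ?_
          have := hx x hx'
          omega
        rw [h4] at h1
        omega
      have hy : ∃ y ∈ G, g y = θ := by
        by_contra hx
        push Not at hx
        have h4 : (G.filter fun x => g x < θ + 1) = G.filter fun x => g x < θ := by
          refine Finset.filter_congr fun x hx' => ?_
          have := hx x hx'
          omega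
        rw [h4] at h2
        omega
      obtain ⟨x, hx, hfx⟩ := hx
      obtain ⟨y, hy, hgy⟩ := hy
      exact hne x hx y hy (by rw [hfx, hgy])
  by_cases hF0 : F.card = 0
  · refine ⟨∅, Finset.empty_subset _, G, Finset.Subset.refl _, by omega, by omega, Or.inl ?_⟩
    intro x hx
    simp at hx
  by_cases hG0 : G.card = 0
  · refine ⟨F, Finset.Subset.refl _, ∅, Finset.empty_subset _, by omega, by omega, Or.inl ?_⟩
    intro x _ y hy
    simp at hy
  by_cases h1 : F.card ≤ 2 * (F.filter fun x => f x < θ).card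
  · have h2 : ¬ G.card ≤ 2 * (G.filter fun x => g x < θ).card := fun h2 => by
      rcases hboth h1 h2 with h | h
      · exact hF0 h
      · exact hG0 h
    refine ⟨F.filter fun x => f x < θ, Finset.filter_subset _ _, G.filter fun x => ¬ g x < θ,
      Finset.filter_subset _ _, h1, by omega, Or.inl ?_⟩
    intro x hx y hy
    have h3 := (Finset.mem_filter.1 hx).2
    have h4 := (Finset.mem_filter.1 hy).2
    omega
  · have h2 : G.card ≤ 2 * (G.filter fun x => g x < θ).card := hθ.resolve_left h1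
    refine ⟨F.filter fun x => ¬ f x < θ, Finset.filter_subset _ _, G.filter fun x => g x < θ,
      Finset.filter_subset _ _, by omega, h2, Or.inr ?_⟩
    intro x hx y hy
    have h3 := (Finset.mem_filter.1 hx).2
    have h4 := (Finset.mem_filter.1 hy).2
    omega

variable {Q : ℕ}

theorem sep_list (τ : ℕ → Fin Q → ℕ) (L : List (Fin Q × Fin Q)) (F G : Finset ℕ)
    (hne : ∀ x ∈ F, ∀ y ∈ G, ∀ a b, τ x a ≠ τ y b) :
    ∃ F' ⊆ F, ∃ G' ⊆ G, F.card ≤ 2 ^ L.length * F'.card ∧ G.card ≤ 2 ^ L.length * G'.card ∧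
      ∀ p ∈ L, (∀ x ∈ F', ∀ y ∈ G', τ x p.1 < τ y p.2) ∨ (∀ x ∈ F', ∀ y ∈ G', τ y p.2 < τ x p.1) := by
  induction L with
  | nil =>
    exact ⟨F, Finset.Subset.refl _, G, Finset.Subset.refl _, by simp, by simp, by simp⟩
  | cons p L ih =>
    obtain ⟨F1, hF1, G1, hG1, h1, h2, h3⟩ := ih
    obtain ⟨F2, hF2, G2, hG2, h4, h5, h6⟩ := sep_one (f := fun x => τ x p.1) (g := fun y => τ y p.2) F1 G1
      (fun x hx y hy => hne x (hF1 hx) y (hG1 hy) _ _)
    refine ⟨F2, hF2.trans hF1, G2, hG2.trans hG1, ?_, ?_, ?_⟩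
    · rw [List.length_cons, pow_succ]
      calc F.card ≤ 2 ^ L.length * F1.card := h1
        _ ≤ 2 ^ L.length * (2 * F2.card) := Nat.mul_le_mul_left _ h4
        _ = _ := by ring
    · rw [List.length_cons, pow_succ]
      calc G.card ≤ 2 ^ L.length * G1.card := h2
        _ ≤ 2 ^ L.length * (2 * G2.card) := Nat.mul_le_mul_left _ h5
        _ = _ := by ring
    · intro p' hp'
      rcases List.mem_cons.1 hp' with rfl | hp'
      · exact h6
      · rcases h3 p' hp' with h | h
        · exact Or.inl fun x hx y hy => h x (hF2 hx) y (hG2 hy)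
        · exact Or.inr fun x hx y hy => h x (hF2 hx) y (hG2 hy)

/-- the relative order of the times of two leaves: the number of the times of the second leaf before each time of the
first leaf -/
abbrev Rel (Q : ℕ) : Type := Fin Q → Fin (Q + 1)

/-- the relative order of the times of `x` and of `y` is given by `R` -/
def Prec (τ : ℕ → Fin Q → ℕ) (R : Rel Q) (x y : ℕ) : Prop := ∀ a b, τ x a < τ y b ↔ (R a).1 ≤ b.1

theorem down_set (D : Finset (Fin Q)) (hD : ∀ b ∈ D, ∀ b' ≤ b, b' ∈ D) (b : Fin Q) : b ∉ D ↔ D.card ≤ b.1 := by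
  classical
  constructor
  · intro hb
    have h1 : D ⊆ Finset.univ.filter fun b' => b' < b := by
      intro b' hb'
      rw [Finset.mem_filter]
      refine ⟨Finset.mem_univ _, ?_⟩
      by_contra h
      exact hb (hD b' hb' b (not_lt.1 h))
    have h2 := Finset.card_le_card h1
    have h3 : (Finset.univ.filter fun b' : Fin Q => b' < b) = Finset.Iio b := by
      ext b'; simp
    rw [h3, Fin.card_Iio] at h2
    exact h2
  · intro h hb
    have h1 : Finset.Iic b ⊆ D := by
      intro b' hb'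
      exact hD b hb b' (Finset.mem_Iic.1 hb')
    have h2 := Finset.card_le_card h1
    rw [Fin.card_Iic] at h2
    omega

theorem sep_all (τ : ℕ → Fin Q → ℕ) (F G : Finset ℕ) (hF : F.Nonempty) (hG : G.Nonempty)
    (hmono : ∀ y ∈ G, Monotone (τ y)) (hne : ∀ x ∈ F, ∀ y ∈ G, ∀ a b, τ x a ≠ τ y b) :
    ∃ F' ⊆ F, ∃ G' ⊆ G, ∃ R : Rel Q, F'.Nonempty ∧ G'.Nonempty ∧ F.card ≤ 2 ^ (Q * Q) * F'.card ∧
      G.card ≤ 2 ^ (Q * Q) * G'.card ∧ ∀ x ∈ F', ∀ y ∈ G', Prec τ R x y := by
  classical
  obtain ⟨F', hF', G', hG', h1, h2, h3⟩ := sep_list τ (Finset.univ : Finset (Fin Q × Fin Q)).toList F G hne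
  have hlen : (Finset.univ : Finset (Fin Q × Fin Q)).toList.length = Q * Q := by
    rw [Finset.length_toList, Finset.card_univ, Fintype.card_prod, Fintype.card_fin]
  rw [hlen] at h1 h2
  have hF1 : F'.Nonempty := by
    rw [← Finset.card_pos]
    rcases Nat.eq_zero_or_pos F'.card with h | h
    · rw [h, mul_zero] at h1
      have := Finset.card_pos.2 hF
      omega
    · exact h
  have hG1 : G'.Nonempty := by
    rw [← Finset.card_pos]
    rcases Nat.eq_zero_or_pos G'.card with h | h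
    · rw [h, mul_zero] at h2
      have := Finset.card_pos.2 hG
      omega
    · exact h
  obtain ⟨x0, hx0⟩ := hF1
  obtain ⟨y0, hy0⟩ := hG1
  refine ⟨F', hF', G', hG', fun a => ⟨(Finset.univ.filter fun b => ¬ τ x0 a < τ y0 b).card, ?_⟩, ⟨x0, hx0⟩, ⟨y0, hy0⟩,
    h1, h2, ?_⟩
  · have := Finset.card_le_univ (Finset.univ.filter fun b => ¬ τ x0 a < τ y0 b)
    rw [Fintype.card_fin] at this
    omega
  intro x hx y hy a b
  have h4 := down_set (Finset.univ.filter fun b => ¬ τ x0 a < τ y0 b) (by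
    intro b hb b' hb'
    rw [Finset.mem_filter] at hb ⊢
    refine ⟨Finset.mem_univ _, ?_⟩
    have := hmono y0 (hG' hy0) hb'
    omega) b
  rw [Finset.mem_filter] at h4
  simp only [Finset.mem_univ, true_and, not_not] at h4
  show τ x a < τ y b ↔ (Finset.univ.filter fun b => ¬ τ x0 a < τ y0 b).card ≤ b.1
  rw [← h4]
  rcases h3 (a, b) (by simp) with h5 | h5
  · exact ⟨fun _ => h5 x0 hx0 y0 hy0, fun _ => h5 x hx y hy⟩
  · have h6 : τ y b < τ x a := h5 x hx y hy
    have h7 : τ y0 b < τ x0 a := h5 x0 hx0 y0 hy0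
    exact ⟨fun h => absurd h (not_lt.2 h6.le), fun h => absurd h (not_lt.2 h7.le)⟩

/-- A list of leaves `x` with the heights `k` of the points where the way to `x` leaves the way from the root to `e`;
the leaves are alternately low (`b = true`) and high. -/
def Alt (τ : ℕ → Fin Q → ℕ) (R : Rel Q) (e : ℕ) (F : Finset ℕ) : Bool → ℕ → List (ℕ × ℕ) → Prop
  | _, _, [] => True
  | b, t, p :: L => p.1 ∈ F ∧ 1 ≤ p.2 ∧ p.2 ≤ t ∧ p.1 / 2 ^ p.2 = e / 2 ^ p.2 ∧
      p.1 / 2 ^ (p.2 - 1) ≠ e / 2 ^ (p.2 - 1) ∧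
      (∀ y ∈ L, (b = true → Prec τ R p.1 y.1) ∧ (b = false → Prec τ R y.1 p.1)) ∧ Alt τ R e F (!b) (p.2 - 1) L

theorem Alt.mono {τ : ℕ → Fin Q → ℕ} {R : Rel Q} {e : ℕ} {F F' : Finset ℕ} (hF : F ⊆ F') :
    ∀ (L : List (ℕ × ℕ)) (b : Bool) (t t' : ℕ), t ≤ t' → Alt τ R e F b t L → Alt τ R e F' b t' L := by
  intro L
  induction L with
  | nil => intro b t t' _ _; trivial
  | cons p L ih =>
    intro b t t' ht h
    obtain ⟨h1, h2, h3, h4, h5, h6, h7⟩ := h
    exact ⟨hF h1, h2, h3.trans ht, h4, h5, h6, ih _ _ _ le_rfl h7⟩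

theorem Alt.mem {τ : ℕ → Fin Q → ℕ} {R : Rel Q} {e : ℕ} {F : Finset ℕ} :
    ∀ (L : List (ℕ × ℕ)) (b : Bool) (t : ℕ), Alt τ R e F b t L → ∀ y ∈ L, y.1 ∈ F := by
  intro L
  induction L with
  | nil => intro b t _ y hy; simp at hy
  | cons p L ih =>
    intro b t h y hy
    obtain ⟨h1, h2, h3, h4, h5, h6, h7⟩ := h
    rcases List.mem_cons.1 hy with rfl | hy
    · exact h1
    · exact ih _ _ h7 y hy

theorem descend (τ : ℕ → Fin Q → ℕ) : ∀ (t v : ℕ) (F : Finset ℕ), (∀ x ∈ F, x / 2 ^ t = v) → F.Nonempty →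
    (∀ x ∈ F, Monotone (τ x)) → (∀ x ∈ F, ∀ y ∈ F, x ≠ y → ∀ a b, τ x a ≠ τ y b) → ∀ σ : Rel Q → Bool,
    ∃ e ∈ F, ∃ L : Rel Q → List (ℕ × ℕ), (∀ R, Alt τ R e F (σ R) t (L R)) ∧
      F.card * 4 ^ t ≤ 5 ^ t * 2 ^ ((Q * Q + 2) * ∑ R, (L R).length) := by
  classical
  intro t
  induction t with
  | zero =>
    intro v F hF hne _ _ σ
    obtain ⟨e, he⟩ := hne
    refine ⟨e, he, fun _ => [], fun _ => trivial, ?_⟩
    have h1 : F ⊆ {v} := fun x hx => by
      have := hF x hx
      rw [pow_zero, Nat.div_one] at this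
      rw [this]; exact Finset.mem_singleton_self _
    have h2 := Finset.card_le_card h1
    simpa using h2
  | succ t ih =>
    intro v F hF hne hmono hdis σ
    set F0 := F.filter fun x => x / 2 ^ t = 2 * v with hF0
    set F1 := F.filter fun x => ¬ x / 2 ^ t = 2 * v with hF1
    have hm0 : ∀ x ∈ F0, x / 2 ^ t = 2 * v := fun x hx => (Finset.mem_filter.1 hx).2
    have hm1 : ∀ x ∈ F1, x / 2 ^ t = 2 * v + 1 := fun x hx => by
      obtain ⟨h1, h2⟩ := Finset.mem_filter.1 hx
      have h3 := hF x h1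
      rw [pow_succ, ← Nat.div_div_eq_div_mul] at h3
      omega
    have hcard : F0.card + F1.card = F.card := Finset.card_filter_add_card_filter_not _
    have hs0 : F0 ⊆ F := Finset.filter_subset _ _
    have hs1 : F1 ⊆ F := Finset.filter_subset _ _
    have hpos : 0 < F.card := Finset.card_pos.2 hne
    -- descend without a record
    have plain : ∀ (F' : Finset ℕ) (v' : ℕ), F' ⊆ F → (∀ x ∈ F', x / 2 ^ t = v') → 4 * F.card ≤ 5 * F'.card →
        ∃ e ∈ F, ∃ L : Rel Q → List (ℕ × ℕ), (∀ R, Alt τ R e F (σ R) (t + 1) (L R)) ∧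
          F.card * 4 ^ (t + 1) ≤ 5 ^ (t + 1) * 2 ^ ((Q * Q + 2) * ∑ R, (L R).length) := by
      intro F' v' hsub hv' hc
      obtain ⟨e, he, L, hL, hcount⟩ := ih v' F' hv' (Finset.card_pos.1 (by omega))
        (fun x hx => hmono x (hsub hx)) (fun x hx y hy => hdis x (hsub hx) y (hsub hy)) σ
      refine ⟨e, hsub he, L, fun R => Alt.mono hsub _ _ _ _ (Nat.le_succ t) (hL R), ?_⟩
      calc F.card * 4 ^ (t + 1) = (4 * F.card) * 4 ^ t := by ring
        _ ≤ (5 * F'.card) * 4 ^ t := Nat.mul_le_mul_right _ hc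
        _ = 5 * (F'.card * 4 ^ t) := by ring
        _ ≤ 5 * (5 ^ t * 2 ^ ((Q * Q + 2) * ∑ R, (L R).length)) := Nat.mul_le_mul_left _ hcount
        _ = _ := by ring
    by_cases hA : 5 * F1.card < F.card
    · exact plain F0 (2 * v) hs0 hm0 (by omega)
    by_cases hB : 5 * F0.card < F.card
    · exact plain F1 (2 * v + 1) hs1 hm1 (by omega)
    -- a record
    have hn0 : F0.Nonempty := Finset.card_pos.1 (by omega)
    have hn1 : F1.Nonempty := Finset.card_pos.1 (by omega)
    have hdis01 : ∀ x ∈ F0, ∀ y ∈ F1, ∀ a b, τ x a ≠ τ y b := fun x hx y hy =>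
      hdis x (hs0 hx) y (hs1 hy) (fun h => by
        have h1 := hm0 x hx
        have h2 := hm1 y hy
        rw [h] at h1
        omega)
    obtain ⟨G0, hG0, G1, hG1, R0, hne0, hne1, hc0, hc1, hprec⟩ := sep_all τ F0 F1 hn0 hn1
      (fun y hy => hmono y (hs1 hy)) hdis01
    -- descend with a record
    have record : ∀ (G : Finset ℕ) (v' x : ℕ), G ⊆ F → G.Nonempty → (∀ y ∈ G, y / 2 ^ t = v') → x ∈ F →
        x / 2 ^ t ≠ v' → F.card ≤ 5 * (2 ^ (Q * Q) * G.card) →
        (∀ y ∈ G, (σ R0 = true → Prec τ R0 x y) ∧ (σ R0 = false → Prec τ R0 y x)) →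
        ∃ e ∈ F, ∃ L : Rel Q → List (ℕ × ℕ), (∀ R, Alt τ R e F (σ R) (t + 1) (L R)) ∧
          F.card * 4 ^ (t + 1) ≤ 5 ^ (t + 1) * 2 ^ ((Q * Q + 2) * ∑ R, (L R).length) := by
      intro G v' x hGF hGne hv' hx hxv hc hp
      obtain ⟨e, he, L, hL, hcount⟩ := ih v' G hv' hGne
        (fun x hx => hmono x (hGF hx)) (fun x hx y hy => hdis x (hGF hx) y (hGF hy)) (Function.update σ R0 (!(σ R0)))
      refine ⟨e, hGF he, Function.update L R0 ((x, t + 1) :: L R0), ?_, ?_⟩
      · intro R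
        by_cases hR : R = R0
        · subst hR
          rw [Function.update_self]
          have h1 := hL R
          rw [Function.update_self] at h1
          have h2 := Alt.mem _ _ _ h1
          refine ⟨hx, by simp, le_rfl, ?_, ?_, ?_, ?_⟩
          · show x / 2 ^ (t + 1) = e / 2 ^ (t + 1)
            rw [hF x hx, hF e (hGF he)]
          · show x / 2 ^ (t + 1 - 1) ≠ e / 2 ^ (t + 1 - 1)
            rw [Nat.add_sub_cancel, hv' e he]
            exact hxv
          · intro y hy
            exact hp y.1 (h2 y hy)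
          · exact Alt.mono hGF _ _ _ _ (by simp) h1
        · rw [Function.update_of_ne hR]
          have h1 := hL R
          rw [Function.update_of_ne hR] at h1
          exact Alt.mono hGF _ _ _ _ (Nat.le_succ t) h1
      · have hsum : ∑ R, (Function.update L R0 ((x, t + 1) :: L R0) R).length = ∑ R, (L R).length + 1 := by
          rw [← Finset.add_sum_erase _ _ (Finset.mem_univ R0), ← Finset.add_sum_erase _ _ (Finset.mem_univ R0),
            Function.update_self, List.length_cons]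
          have : ∑ R ∈ Finset.univ.erase R0, (Function.update L R0 ((x, t + 1) :: L R0) R).length =
              ∑ R ∈ Finset.univ.erase R0, (L R).length := by
            refine Finset.sum_congr rfl fun R hR => ?_
            rw [Function.update_of_ne (Finset.ne_of_mem_erase hR)]
          rw [this]
          ring
        rw [hsum]
        calc F.card * 4 ^ (t + 1) ≤ (5 * (2 ^ (Q * Q) * G.card)) * 4 ^ (t + 1) := Nat.mul_le_mul_right _ hc
          _ = 20 * 2 ^ (Q * Q) * (G.card * 4 ^ t) := by ring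
          _ ≤ 20 * 2 ^ (Q * Q) * (5 ^ t * 2 ^ ((Q * Q + 2) * ∑ R, (L R).length)) := Nat.mul_le_mul_left _ hcount
          _ = 5 ^ (t + 1) * 2 ^ ((Q * Q + 2) * (∑ R, (L R).length + 1)) := by
            rw [mul_add, mul_one, pow_add 2 ((Q * Q + 2) * ∑ R, (L R).length) (Q * Q + 2), pow_add 2 (Q * Q) 2]
            ring
    obtain ⟨x0, hx0⟩ := hne0
    obtain ⟨x1, hx1⟩ := hne1
    cases hσ : σ R0 with
    | true =>
      refine record G1 (2 * v + 1) x0 (hG1.trans hs1) ⟨x1, hx1⟩ (fun y hy => hm1 y (hG1 hy)) (hs0 (hG0 hx0)) ?_ ?_ ?_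
      · rw [hm0 x0 (hG0 hx0)]; omega
      · have : 5 * F1.card ≤ 5 * (2 ^ (Q * Q) * G1.card) := Nat.mul_le_mul_left _ hc1
        omega
      · intro y hy
        exact ⟨fun _ => hprec x0 hx0 y hy, fun h => by rw [hσ] at h; simp at h⟩
    | false =>
      refine record G0 (2 * v) x1 (hG0.trans hs0) ⟨x0, hx0⟩ (fun y hy => hm0 y (hG0 hy)) (hs1 (hG1 hx1)) ?_ ?_ ?_
      · rw [hm1 x1 (hG1 hx1)]; omega
      · have : 5 * F0.card ≤ 5 * (2 ^ (Q * Q) * G0.card) := Nat.mul_le_mul_left _ hc0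
        omega
      · intro y hy
        exact ⟨fun h => by rw [hσ] at h; simp at h, fun _ => hprec y hy x1 hx1⟩

/-- the class of the relative order with the longest list -/
theorem long_list (τ : ℕ → Fin Q → ℕ) (h : ℕ) (F : Finset ℕ) (hF : ∀ x ∈ F, x / 2 ^ h = 1) (hne : F.Nonempty)
    (hmono : ∀ x ∈ F, Monotone (τ x)) (hdis : ∀ x ∈ F, ∀ y ∈ F, x ≠ y → ∀ a b, τ x a ≠ τ y b) :
    ∃ e ∈ F, ∃ (R : Rel Q) (L : List (ℕ × ℕ)), Alt τ R e F true h L ∧
      F.card * 4 ^ h ≤ 5 ^ h * 2 ^ ((Q * Q + 2) * ((Q + 1) ^ Q * L.length)) := by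
  classical
  obtain ⟨e, he, L, hL, hc⟩ := descend τ h 1 F hF hne hmono hdis fun _ => true
  obtain ⟨R, _, hR⟩ := Finset.exists_max_image (Finset.univ : Finset (Rel Q)) (fun R => (L R).length)
    ⟨fun _ => 0, Finset.mem_univ _⟩
  refine ⟨e, he, R, L R, hL R, hc.trans ?_⟩
  refine Nat.mul_le_mul_left _ (Nat.pow_le_pow_right (by norm_num) (Nat.mul_le_mul_left _ ?_))
  have h1 := Finset.sum_le_card_nsmul (Finset.univ : Finset (Rel Q)) (fun R => (L R).length) (L R).length
    (fun R' hR' => hR R' hR')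
  refine h1.trans (le_of_eq ?_)
  rw [Finset.card_univ, smul_eq_mul]
  congr 1
  simp only [Fintype.card_pi, Finset.prod_const, Finset.card_univ, Fintype.card_fin]

/-- the edges of the path between `x` and `y` in the binary tree, if `x / 2 ^ k = y / 2 ^ k` (the edge from `u` to its
parent `u / 2` has the number `u`) -/
def Pth (k x y : ℕ) : Finset ℕ := (Finset.range k).image (fun j => x / 2 ^ j) ∪ (Finset.range k).image fun j => y / 2 ^ j

theorem mem_pth {k x y u : ℕ} : u ∈ Pth k x y ↔ ∃ j < k, u = x / 2 ^ j ∨ u = y / 2 ^ j := by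
  classical
  unfold Pth
  simp only [Finset.mem_union, Finset.mem_image, Finset.mem_range]
  constructor
  · rintro (⟨j, hj, h⟩ | ⟨j, hj, h⟩)
    · exact ⟨j, hj, Or.inl h.symm⟩
    · exact ⟨j, hj, Or.inr h.symm⟩
  · rintro ⟨j, hj, h | h⟩
    · exact Or.inl ⟨j, hj, h.symm⟩
    · exact Or.inr ⟨j, hj, h.symm⟩

theorem pth_card (k x y : ℕ) : (Pth k x y).card ≤ 2 * k := by
  classical
  unfold Pth
  refine (Finset.card_union_le _ _).trans ?_
  have h1 : ((Finset.range k).image fun j => x / 2 ^ j).card ≤ k := by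
    simpa using Finset.card_image_le (s := Finset.range k) (f := fun j => x / 2 ^ j)
  have h2 : ((Finset.range k).image fun j => y / 2 ^ j).card ≤ k := by
    simpa using Finset.card_image_le (s := Finset.range k) (f := fun j => y / 2 ^ j)
  omega

/-- the height of a vertex is determined by the vertex -/
theorem height_eq {h x y i j : ℕ} (hx : x / 2 ^ h = 1) (hy : y / 2 ^ h = 1) (hi : i ≤ h) (hj : j ≤ h)
    (he : x / 2 ^ i = y / 2 ^ j) : i = j := by
  have key : ∀ {x y i j : ℕ}, x / 2 ^ h = 1 → y / 2 ^ h = 1 → i ≤ h → j ≤ h → x / 2 ^ i = y / 2 ^ j → ¬ i < j := by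
    intro x y i j hx hy hi hj he hlt
    have h1 : (x / 2 ^ i) / 2 ^ (h - i) = 1 := by
      rw [Nat.div_div_eq_div_mul, ← pow_add, Nat.add_sub_cancel' hi, hx]
    have h2 : (y / 2 ^ j) / 2 ^ (h - j) = 1 := by
      rw [Nat.div_div_eq_div_mul, ← pow_add, Nat.add_sub_cancel' hj, hy]
    rw [he] at h1
    have h3 : (y / 2 ^ j) / 2 ^ (h - i) = (y / 2 ^ j) / 2 ^ (h - j) / 2 ^ (j - i) := by
      rw [Nat.div_div_eq_div_mul (y / 2 ^ j), ← pow_add]
      congr 2
      omega
    rw [h2] at h3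
    rw [h1] at h3
    have h4 : 2 ≤ 2 ^ (j - i) := by
      calc 2 = 2 ^ 1 := by norm_num
        _ ≤ 2 ^ (j - i) := Nat.pow_le_pow_right (by norm_num) (by omega)
    have h5 : 1 / 2 ^ (j - i) = 0 := Nat.div_eq_of_lt (by omega)
    omega
  rcases lt_trichotomy i j with h1 | h1 | h1
  · exact absurd h1 (key hx hy hi hj he)
  · exact h1
  · exact absurd h1 (key hy hx hj hi he.symm)

/-- the members of the list with the numbers `i < j` -/
theorem Alt.get {τ : ℕ → Fin Q → ℕ} {R : Rel Q} {e : ℕ} {F : Finset ℕ} :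
    ∀ (L : List (ℕ × ℕ)) (b : Bool) (t : ℕ), Alt τ R e F b t L → ∀ (i : ℕ) (hi : i < L.length),
      L[i].1 ∈ F ∧ 1 ≤ L[i].2 ∧ L[i].2 ≤ t ∧ L[i].1 / 2 ^ L[i].2 = e / 2 ^ L[i].2 ∧
      L[i].1 / 2 ^ (L[i].2 - 1) ≠ e / 2 ^ (L[i].2 - 1) ∧
      ∀ (j : ℕ) (hj : j < L.length), i < j → L[j].2 < L[i].2 ∧
        (b = (decide (i % 2 = 0)) → Prec τ R L[i].1 L[j].1) ∧ (b ≠ (decide (i % 2 = 0)) → Prec τ R L[j].1 L[i].1) := by
  intro L
  induction L with
  | nil => intro b t _ i hi; simp at hi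
  | cons p L ih =>
    intro b t h i hi
    obtain ⟨h1, h2, h3, h4, h5, h6, h7⟩ := h
    rcases i with _ | i
    · refine ⟨h1, h2, h3, h4, h5, ?_⟩
      intro j hj hij
      rcases j with _ | j
      · omega
      · have hj' : j < L.length := by simpa using hj
        have h8 := (ih (!b) (p.2 - 1) h7 j hj').2.2.1
        have h9 := h6 L[j] (List.getElem_mem hj')
        simp only [List.getElem_cons_succ, List.getElem_cons_zero]
        refine ⟨by omega, fun h => h9.1 (by simpa using h), fun h => h9.2 (by simpa using h)⟩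
    · have hi' : i < L.length := by simpa using hi
      obtain ⟨g1, g2, g3, g4, g5, g6⟩ := ih (!b) (p.2 - 1) h7 i hi'
      simp only [List.getElem_cons_succ]
      refine ⟨g1, g2, by omega, g4, g5, ?_⟩
      intro j hj hij
      rcases j with _ | j
      · omega
      · have hj' : j < L.length := by simpa using hj
        obtain ⟨g7, g8, g9⟩ := g6 j hj' (by omega)
        simp only [List.getElem_cons_succ]
        have hpar : (decide ((i + 1) % 2 = 0)) = !(decide (i % 2 = 0)) := by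
          rcases Nat.mod_two_eq_zero_or_one i with h | h
          · have : (i + 1) % 2 = 1 := by omega
            simp [h, this]
          · have : (i + 1) % 2 = 0 := by omega
            simp [h, this]
        rw [hpar]
        refine ⟨g7, fun h => g8 (by rw [h]; simp), fun h => g9 (by
          intro h'
          apply h
          rw [← h']
          simp)⟩

theorem ne_lower {x e k m : ℕ} (h : x / 2 ^ (k - 1) ≠ e / 2 ^ (k - 1)) (hm : m < k) : x / 2 ^ m ≠ e / 2 ^ m := by
  intro h1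
  apply h
  have h2 : ∀ y : ℕ, y / 2 ^ (k - 1) = y / 2 ^ m / 2 ^ (k - 1 - m) := fun y => by
    rw [Nat.div_div_eq_div_mul, ← pow_add]
    congr 2
    omega
  rw [h2 x, h2 e, h1]

theorem eq_upper {x e k m : ℕ} (h : x / 2 ^ k = e / 2 ^ k) (hm : k ≤ m) : x / 2 ^ m = e / 2 ^ m := by
  have h2 : ∀ y : ℕ, y / 2 ^ m = y / 2 ^ k / 2 ^ (m - k) := fun y => by
    rw [Nat.div_div_eq_div_mul, ← pow_add]
    congr 2
    omega
  rw [h2 x, h2 e, h]

/-- Many pairs of a low and a high leaf with disjoint connecting paths. -/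
theorem pairs (τ : ℕ → Fin Q → ℕ) (h : ℕ) (F : Finset ℕ) (hF : ∀ x ∈ F, x / 2 ^ h = 1) (hne : F.Nonempty)
    (hmono : ∀ x ∈ F, Monotone (τ x)) (hdis : ∀ x ∈ F, ∀ y ∈ F, x ≠ y → ∀ a b, τ x a ≠ τ y b) :
    ∃ (z : ℕ) (x y k : Fin z → ℕ) (R : Rel Q),
      (∀ i, x i ∈ F ∧ y i ∈ F ∧ 1 ≤ k i ∧ k i ≤ h ∧ x i / 2 ^ k i = y i / 2 ^ k i) ∧
      (∀ i j, Prec τ R (x i) (y j)) ∧ (∀ i j, x i ≠ y j) ∧
      (∀ i j, i ≠ j → Disjoint (Pth (k i) (x i) (y i)) (Pth (k j) (x j) (y j))) ∧
      F.card * 4 ^ h ≤ 5 ^ h * 2 ^ ((Q * Q + 2) * ((Q + 1) ^ Q * (2 * z + 1))) := by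
  classical
  obtain ⟨e, he, R, L, hL, hc⟩ := long_list τ h F hF hne hmono hdis
  have hget := Alt.get L true h hL
  have hlt1 : ∀ i : Fin (L.length / 2), 2 * i.1 < L.length := fun i => by have := i.2; omega
  have hlt2 : ∀ i : Fin (L.length / 2), 2 * i.1 + 1 < L.length := fun i => by have := i.2; omega
  -- the facts about the members
  have f1 : ∀ i : Fin (L.length / 2), L[2 * i.1].2 > L[2 * i.1 + 1].2 := fun i =>
    ((hget (2 * i.1) (hlt1 i)).2.2.2.2.2 (2 * i.1 + 1) (hlt2 i) (by omega)).1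
  have f2 : ∀ i j : Fin (L.length / 2), i < j → L[2 * j.1].2 < L[2 * i.1 + 1].2 := fun i j hij =>
    ((hget (2 * i.1 + 1) (hlt2 i)).2.2.2.2.2 (2 * j.1) (hlt1 j) (by
      have : i.1 < j.1 := hij
      omega)).1
  have prec : ∀ i j : Fin (L.length / 2), Prec τ R (L[2 * i.1]).1 (L[2 * j.1 + 1]).1 := by
    intro i j
    rcases lt_or_ge (2 * i.1) (2 * j.1 + 1) with h1 | h1
    · refine ((hget (2 * i.1) (hlt1 i)).2.2.2.2.2 (2 * j.1 + 1) (hlt2 j) h1).2.1 ?_
      have : 2 * i.1 % 2 = 0 := by omega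
      simp [this]
    · refine ((hget (2 * j.1 + 1) (hlt2 j)).2.2.2.2.2 (2 * i.1) (hlt1 i) (by omega)).2.2 ?_
      have : (2 * j.1 + 1) % 2 = 1 := by omega
      simp [this]
  refine ⟨L.length / 2, fun i => L[2 * i.1].1, fun i => L[2 * i.1 + 1].1, fun i => L[2 * i.1].2, R, ?_, prec, ?_, ?_, ?_⟩
  · intro i
    obtain ⟨g1, g2, g3, g4, g5, g6⟩ := hget (2 * i.1) (hlt1 i)
    obtain ⟨k1, k2, k3, k4, k5, k6⟩ := hget (2 * i.1 + 1) (hlt2 i)
    refine ⟨g1, k1, g2, g3, ?_⟩
    rw [g4, eq_upper k4 (f1 i).le]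
  · intro i j hij
    -- different heights
    obtain ⟨g1, g2, g3, g4, g5, g6⟩ := hget (2 * i.1) (hlt1 i)
    obtain ⟨k1, k2, k3, k4, k5, k6⟩ := hget (2 * j.1 + 1) (hlt2 j)
    have h1 : L[2 * i.1].2 ≠ L[2 * j.1 + 1].2 := by
      rcases lt_trichotomy i j with h2 | h2 | h2
      · have h3 := f2 i j h2
        have h4 := f1 j
        have h5 := f1 i
        omega
      · subst h2
        exact (f1 i).ne'
      · have := f2 j i h2
        omega
    simp only at hij
    rcases lt_or_gt_of_ne h1 with h2 | h2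
    · refine ne_lower k5 h2 ?_
      rw [← hij, g4]
    · refine ne_lower g5 h2 ?_
      rw [hij, k4]
  · -- disjoint paths
    have main : ∀ i j : Fin (L.length / 2), i < j →
        Disjoint (Pth (L[2 * i.1].2) (L[2 * i.1].1) (L[2 * i.1 + 1].1))
          (Pth (L[2 * j.1].2) (L[2 * j.1].1) (L[2 * j.1 + 1].1)) := by
      intro i j hij
      rw [Finset.disjoint_left]
      intro u hu hu'
      rw [mem_pth] at hu hu'
      obtain ⟨m, hm, hu⟩ := hu
      obtain ⟨m', hm', hu'⟩ := hu'
      obtain ⟨g1, g2, g3, g4, g5, g6⟩ := hget (2 * i.1) (hlt1 i)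
      obtain ⟨k1, k2, k3, k4, k5, k6⟩ := hget (2 * i.1 + 1) (hlt2 i)
      obtain ⟨g1', g2', g3', g4', g5', g6'⟩ := hget (2 * j.1) (hlt1 j)
      obtain ⟨k1', k2', k3', k4', k5', k6'⟩ := hget (2 * j.1 + 1) (hlt2 j)
      have h1 := f2 i j hij
      have h2 := f1 i
      have h3 := f1 j
      -- a vertex above `w` for both
      have key : ∀ w w', w ∈ F → w' ∈ F → w / 2 ^ m = w' / 2 ^ m' → w' / 2 ^ (L[2 * j.1].2) = e / 2 ^ (L[2 * j.1].2) →
          w / 2 ^ (L[2 * j.1].2) ≠ e / 2 ^ (L[2 * j.1].2) → False := by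
        intro w w' hw hw' heq h4 h5
        have h6 : m = m' := height_eq (hF w hw) (hF w' hw') (by omega) (by omega) heq
        subst h6
        have h7 := eq_upper heq hm'.le
        rw [h4] at h7
        exact h5 h7
      rcases hu with hu | hu <;> rcases hu' with hu' | hu'
      · exact key _ _ g1 g1' (hu.symm.trans hu') g4' (ne_lower g5 (by omega))
      · exact key _ _ g1 k1' (hu.symm.trans hu') (eq_upper k4' h3.le) (ne_lower g5 (by omega))
      · exact key _ _ k1 g1' (hu.symm.trans hu') g4' (ne_lower k5 (by omega))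
      · exact key _ _ k1 k1' (hu.symm.trans hu') (eq_upper k4' h3.le) (ne_lower k5 (by omega))
    intro i j hij
    rcases lt_or_gt_of_ne hij with h1 | h1
    · exact main i j h1
    · exact (main j i h1).symm
  · refine hc.trans (Nat.mul_le_mul_left _ (Nat.pow_le_pow_right (by norm_num) (Nat.mul_le_mul_left _
      (Nat.mul_le_mul_left _ ?_))))
    omega

/-- The two sets of times. -/
theorem colour {z : ℕ} (τ : ℕ → Fin Q → ℕ) (x y : Fin z → ℕ) (R : Rel Q) (h : ∀ i j, Prec τ R (x i) (y j))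
    (hdis : ∀ i j a b, τ (x i) a ≠ τ (y j) b) :
    ∃ (W : Finset ℕ) (f : ℕ → Bool), W.card ≤ 2 * Q ∧ (∀ p q, (∀ w ∈ W, w ≤ p ↔ w ≤ q) → f p = f q) ∧
      (∀ i a, f (τ (x i) a) = true) ∧ ∀ i a, f (τ (y i) a) = false := by
  classical
  rcases Nat.eq_zero_or_pos z with rfl | hz
  · exact ⟨∅, fun _ => true, by simp, fun _ _ _ => rfl, fun i => i.elim0, fun i => i.elim0⟩
  have hne : (Finset.univ : Finset (Fin z)).Nonempty := ⟨⟨0, hz⟩, Finset.mem_univ _⟩
  let lo : Fin Q → ℕ := fun a => Finset.univ.inf' hne fun i => τ (x i) a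
  let hi : Fin Q → ℕ := fun a => Finset.univ.inf' hne fun i => τ (y i) a
  let W : Finset ℕ := Finset.univ.image lo ∪ Finset.univ.image hi
  refine ⟨W, fun p => decide (∃ i a, ∀ w ∈ W, w ≤ p ↔ w ≤ τ (x i) a), ?_, ?_, ?_, ?_⟩
  · refine (Finset.card_union_le _ _).trans ?_
    have h1 : (Finset.univ.image lo).card ≤ Q := by
      simpa using Finset.card_image_le (s := (Finset.univ : Finset (Fin Q))) (f := lo)
    have h2 : (Finset.univ.image hi).card ≤ Q := by
      simpa using Finset.card_image_le (s := (Finset.univ : Finset (Fin Q))) (f := hi)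
    omega
  · intro p q hpq
    show decide _ = decide _
    rw [decide_eq_decide]
    constructor
    · rintro ⟨i, a, h1⟩
      exact ⟨i, a, fun w hw => (hpq w hw).symm.trans (h1 w hw)⟩
    · rintro ⟨i, a, h1⟩
      exact ⟨i, a, fun w hw => (hpq w hw).trans (h1 w hw)⟩
  · intro i a
    rw [decide_eq_true_iff]
    exact ⟨i, a, fun _ _ => Iff.rfl⟩
  · intro j b
    rw [decide_eq_false_iff_not]
    rintro ⟨i, a, h1⟩
    by_cases hR : (R a).1 ≤ b.1
    · have hw : hi b ∈ W := Finset.mem_union_right _ (Finset.mem_image_of_mem _ (Finset.mem_univ _))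
      have h2 : hi b ≤ τ (y j) b := Finset.inf'_le _ (Finset.mem_univ j)
      have h3 : τ (x i) a < hi b := by
        rw [Finset.lt_inf'_iff]
        intro j' _
        exact (h i j' a b).2 hR
      have h4 := (h1 _ hw).1 h2
      omega
    · have hw : lo a ∈ W := Finset.mem_union_left _ (Finset.mem_image_of_mem _ (Finset.mem_univ _))
      have h2 : lo a ≤ τ (x i) a := Finset.inf'_le _ (Finset.mem_univ i)
      have h3 : τ (y j) b < lo a := by
        rw [Finset.lt_inf'_iff]
        intro i' _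
        have h4 : ¬ τ (x i') a < τ (y j) b := fun h5 => hR ((h i' j a b).1 h5)
        have h5 := hdis i' j a b
        omega
      have h4 := (h1 _ hw).2 h2
      omega

end Pool.Agent.H86.Vws
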