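import Pool.Agent.H86.Vws.Trop
import Pool.Agent.H20VP.Upper

/-!
# Degrees, variables and circuits for the tensor networks
-/

set_option autoImplicit false

namespace Pool.Agent.H86.Vws

open Pool.Agent.H20VP MvPolynomial

variable (K : Type) [CommSemiring K]

theorem net_degree (n : ℕ) (hn : 1 ≤ n) : (net K n).totalDegree ≤ 2 * n := by
  classical
  unfold net
  refine Finset.sup_le fun D hD => ?_
  obtain ⟨c, _, hc⟩ := exists_label (Nat.log 2 n) 1 0 D le_rfl (mem_support_iff.1 hD)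
  have h1 := mono_degree (Nat.log 2 n) 1 c
  rw [← hc] at h1
  have h2 : 2 ^ Nat.log 2 n ≤ n := Nat.pow_log_le_self 2 (by omega)
  rw [pow_succ] at h1
  have h3 : (D.sum fun _ e => e) = D.degree := by
    rw [Finsupp.degree_apply]; rfl
  rw [h3]
  omega

theorem net_vars (n : ℕ) (hn : 1 ≤ n) : (net K n).vars.card ≤ 2 * n ^ 13 := by
  classical
  have h2 : 2 ^ Nat.log 2 n ≤ n := Nat.pow_log_le_self 2 (by omega)
  have h1 : (net K n).vars ⊆ (Finset.range (2 ^ (Nat.log 2 n + 1))) ×ˢ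
      (Finset.univ : Finset (Ix (4 * Nat.log 2 n) × Ix (4 * Nat.log 2 n) × Ix (4 * Nat.log 2 n))) := by
    intro x hx
    rw [mem_vars_iff_mem_support] at hx
    obtain ⟨D, hD, hx⟩ := hx
    unfold net at hD
    obtain ⟨c, hc1, hc⟩ := exists_label (Nat.log 2 n) 1 0 D le_rfl (mem_support_iff.1 hD)
    obtain ⟨c', hc'⟩ := exists_lab c hc1
    rw [Finsupp.mem_support_iff, hc, hc', mem_lab] at hx
    rw [Finset.mem_product, Finset.mem_range]
    exact ⟨hx.1.2, Finset.mem_univ _⟩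
  refine (Finset.card_le_card h1).trans ?_
  rw [Finset.card_product, Finset.card_range, Finset.card_univ]
  simp only [Fintype.card_prod, Fintype.card_fun, ZMod.card, Fintype.card_fin]
  calc 2 ^ (Nat.log 2 n + 1) * (2 ^ (4 * Nat.log 2 n) * (2 ^ (4 * Nat.log 2 n) * 2 ^ (4 * Nat.log 2 n)))
      = 2 * (2 ^ Nat.log 2 n) ^ 13 := by rw [← pow_mul, ← pow_add, ← pow_add, ← pow_add, ← pow_succ']; congr 1; ring
    _ ≤ 2 * n ^ 13 := Nat.mul_le_mul_left _ (Nat.pow_le_pow_left h2 13)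

theorem net_circuit (n : ℕ) (hn : 1 ≤ n) :
    ∃ C : Circuit K (Vr (4 * Nat.log 2 n)), C.Computes (net K n) ∧ C.FanInTwo ∧ C.size ≤ 64 * n ^ 14 := by
  refine ⟨circ K (4 * Nat.log 2 n) (Nat.log 2 n), circ_computes K _ _, circ_fanInTwo K _ _, ?_⟩
  refine (circ_size K _ _).trans ?_
  have h2 : 2 ^ Nat.log 2 n ≤ n := Nat.pow_log_le_self 2 (by omega)
  set h := Nat.log 2 n
  have h3 : 4 * h + 4 * h + 1 ≤ 8 * 2 ^ h := by
    have : h + 1 ≤ 2 ^ h := Nat.lt_two_pow_self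
    omega
  calc 4 * 2 ^ (h + 1) * 2 ^ (4 * h) * 2 ^ (4 * h + 4 * h) * (4 * h + 4 * h + 1) ≤
      4 * 2 ^ (h + 1) * 2 ^ (4 * h) * 2 ^ (4 * h + 4 * h) * (8 * 2 ^ h) := Nat.mul_le_mul_left _ h3
    _ = 64 * (2 ^ h) ^ 14 := by
      rw [pow_succ, pow_add, mul_comm 4 h, pow_mul]
      ring
    _ ≤ 64 * n ^ 14 := Nat.mul_le_mul_left _ (Nat.pow_le_pow_left h2 14)

end Pool.Agent.H86.Vws
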