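import Pool.Agent.H86.Vws.Dfn
import Pool.Agent.H86.Vws.Num

/-!
# Powers, and the tropical semiring
-/

set_option autoImplicit false

namespace Pool.Agent.H86.Vws

open Pool.Agent.H20VP MvPolynomial

section

variable {K : Type} [CommSemiring K] [Nontrivial K] [NoZeroDivisors K]

theorem lower_n (h0 : ∀ a b : K, a + b = 0 → a = 0 ∧ b = 0) {n r S : ℕ} (hr : 1 ≤ r)
    {C : Circuit K (Vr (4 * Nat.log 2 n))} {g : MvPolynomial (Vr (4 * Nat.log 2 n)) K} (hC : C.Computes g)
    (hw : C.WeaklySkew) (hg : Approx r S (net K n) g) :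
    n ^ Nat.log 2 n ≤ (S * C.size) ^ ((8 * r) ^ (4 * r + 6)) := by
  classical
  have hn : n ≤ 2 ^ (Nat.log 2 n + 1) := (Nat.lt_pow_succ_log_self (by norm_num) n).le
  obtain ⟨hs, hcov⟩ := hg
  unfold net at hs hcov
  generalize Nat.log 2 n = h at *
  set f := tree K (4 * h) h 1 0 with hf
  have hlab : ∀ c : Ed h → Ix (4 * h), mono h 1 (ext c) ∈ f.support := by
    intro c
    rw [mem_support_iff]
    have h1 := tree_coeff_ne h0 h 1 (ext c)
    rw [ext_one] at h1
    exact h1
  have hex : ∀ M ∈ f.support, ∃ c : Ed h → Ix (4 * h), M = mono h 1 (ext c) := by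
    intro M hM
    rw [mem_support_iff] at hM
    obtain ⟨c, hc, hM⟩ := exists_label h 1 0 M le_rfl hM
    obtain ⟨c', hc'⟩ := exists_lab c hc
    exact ⟨c', hM.trans hc'⟩
  let G : Finset (Ed h → Ix (4 * h)) := Finset.univ.filter fun c =>
    ∃ D ∈ g.support, D.support = (mono h 1 (ext c)).support ∧ D.degree ≤ r * (mono h 1 (ext c)).degree
  have hcard1 : Fintype.card (Ed h → Ix (4 * h)) ≤ f.support.card := by
    rw [← Finset.card_univ]
    exact Finset.card_le_card_of_injOn (fun c => mono h 1 (ext c)) (fun c _ => hlab c)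
      (fun c _ c' _ hcc => lab_inj hcc)
  have hcard2 : Set.ncard {M : Vr (4 * h) →₀ ℕ | M ∈ f.support ∧ Covers r g M} ≤ G.card := by
    have h1 : {M : Vr (4 * h) →₀ ℕ | M ∈ f.support ∧ Covers r g M} ⊆ ↑(G.image fun c => mono h 1 (ext c)) := by
      rintro M ⟨hM, hM'⟩
      obtain ⟨c, rfl⟩ := hex M hM
      rw [Finset.coe_image]
      exact ⟨c, Finset.mem_coe.2 (Finset.mem_filter.2 ⟨Finset.mem_univ _, hM'⟩), rfl⟩
    refine (Set.ncard_le_ncard h1 (Finset.finite_toSet _)).trans ?_
    rw [Set.ncard_coe_finset]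
    exact Finset.card_image_le
  have hmain := lower_h h0 hr hC hw hs G (fun c hc => (Finset.mem_filter.1 hc).2)
    (hcard1.trans (hcov.trans (Nat.mul_le_mul_left _ hcard2)))
  refine le_trans ?_ hmain
  calc n ^ h ≤ (2 ^ (h + 1)) ^ h := Nat.pow_le_pow_left hn h
    _ = 2 ^ ((h + 1) * h) := by rw [← pow_mul]

/-- powers -/
theorem approx_pow (h0 : ∀ a b : K, a + b = 0 → a = 0 ∧ b = 0) {X : Type} (f : MvPolynomial X K) {j r : ℕ}
    (hj : 1 ≤ j) (hjr : j ≤ r) : Approx r 1 f (f ^ j) := by
  classical
  have hpow : ∀ (j : ℕ) (M : X →₀ ℕ), M ∈ f.support → coeff (j • M) (f ^ j) ≠ 0 := by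
    intro j M hM
    induction j with
    | zero => simp
    | succ j ih =>
      rw [add_smul, one_smul, pow_succ]
      exact coeff_mul_ne h0 ih (mem_support_iff.1 hM)
  refine ⟨?_, ?_⟩
  · intro D hD
    obtain ⟨j', rfl⟩ : ∃ j', j = j' + 1 := ⟨j - 1, by omega⟩
    rw [mem_support_iff, pow_succ, coeff_mul] at hD
    obtain ⟨x, hx, hxne⟩ := Finset.exists_ne_zero_of_sum_ne_zero hD
    refine ⟨x.2, mem_support_iff.2 fun h => hxne (by rw [h, mul_zero]), ?_⟩
    rw [← Finset.HasAntidiagonal.mem_antidiagonal.1 hx]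
    exact le_add_self
  · rw [one_mul]
    have h1 : {M : X →₀ ℕ | M ∈ f.support ∧ Covers r (f ^ j) M} = ↑f.support := by
      ext M
      simp only [Set.mem_ofPred_eq, Finset.mem_coe]
      constructor
      · exact fun h => h.1
      · intro hM
        refine ⟨hM, j • M, mem_support_iff.2 (hpow j M hM), ?_, ?_⟩
        · exact Finsupp.support_smul_eq (by omega)
        · rw [map_nsmul, smul_eq_mul]
          exact Nat.mul_le_mul_right _ hjr
    rw [h1, Set.ncard_coe_finset]

end

/-! ### The tropical semiring -/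

open Tropical

theorem trop_add_zero (a b : MinPlus) (h : a + b = 0) : a = 0 ∧ b = 0 := by
  have h1 := congrArg untrop h
  rw [untrop_add, untrop_zero, min_eq_top] at h1
  exact ⟨untrop_injective h1.1, untrop_injective h1.2⟩

instance : NoZeroDivisors MinPlus := ⟨by
  intro a b h
  have h1 := congrArg untrop h
  rw [untrop_mul, untrop_zero, ENNReal.add_eq_top] at h1
  rcases h1 with h1 | h1
  · exact Or.inl (untrop_injective h1)
  · exact Or.inr (untrop_injective h1)⟩

instance : Nontrivial MinPlus := ⟨0, 1, by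
  intro h
  have h1 := congrArg untrop h
  rw [untrop_zero, untrop_one] at h1
  exact ENNReal.top_ne_zero h1⟩

/-- the weight of a monomial -/
noncomputable def wt {X : Type} (w : X → ℕ) (D : X →₀ ℕ) : ℕ := ∑ x ∈ D.support, D x * w x

theorem cost_eq {X : Type} (g : MvPolynomial X MinPlus) (w : X → ℕ) :
    cost g w = g.support.inf fun D => untrop (coeff D g) + (wt w D : ENNReal) := by
  unfold cost
  rw [MvPolynomial.eval_eq, Finset.untrop_sum']
  refine Finset.inf_congr rfl fun D _ => ?_
  simp only [Function.comp_apply]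
  rw [untrop_mul, untrop_prod]
  congr 1
  unfold wt
  rw [Nat.cast_sum]
  refine Finset.sum_congr rfl fun x _ => ?_
  rw [untrop_pow, untrop_trop, Nat.cast_mul, nsmul_eq_mul]

theorem cost_le {X : Type} {g : MvPolynomial X MinPlus} {D : X →₀ ℕ} (hD : D ∈ g.support) (w : X → ℕ) :
    cost g w ≤ untrop (coeff D g) + (wt w D : ENNReal) := by
  rw [cost_eq]
  exact Finset.inf_le hD

theorem exists_cost {X : Type} {g : MvPolynomial X MinPlus} {w : X → ℕ} (h : cost g w ≠ ⊤) :
    ∃ D ∈ g.support, (wt w D : ENNReal) ≤ cost g w := by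
  rw [cost_eq] at h ⊢
  rcases g.support.eq_empty_or_nonempty with he | hne
  · rw [he, Finset.inf_empty] at h
    exact absurd rfl h
  · obtain ⟨D, hD, hD'⟩ := Finset.exists_mem_eq_inf g.support hne
      (fun D => untrop (coeff D g) + (wt w D : ENNReal))
    refine ⟨D, hD, ?_⟩
    rw [hD']
    exact le_add_self

theorem cost_tree_le {R : ℕ} (w : Vr R → ℕ) : ∀ (t v : ℕ) (c : ℕ → Ix R), (∀ x, mono t v c x ≠ 0 → w x = 1) →
    cost (tree MinPlus R t v (c v)) w + 1 ≤ (2 : ENNReal) ^ (t + 1) := by
  intro t
  induction t with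
  | zero =>
    intro v c hw
    have h1 : w (v, c v, 0, 0) = 1 := hw _ (by rw [mono, Finsupp.single_eq_same]; exact one_ne_zero)
    unfold cost
    rw [tree, eval_X, untrop_trop, h1]
    norm_num
  | succ t ih =>
    intro v c hw
    have h1 : w (vr c v) = 1 := hw _ (by
      rw [mono, Finsupp.add_apply, Finsupp.single_eq_same]; omega)
    have h2 := ih (2 * v) c fun x hx => hw x (by
      rw [mono, Finsupp.add_apply, Finsupp.add_apply]; omega)
    have h3 := ih (2 * v + 1) c fun x hx => hw x (by
      rw [mono, Finsupp.add_apply, Finsupp.add_apply]; omega)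
    have h4 : cost (tree MinPlus R (t + 1) v (c v)) w ≤
        1 + cost (tree MinPlus R t (2 * v) (c (2 * v))) w + cost (tree MinPlus R t (2 * v + 1) (c (2 * v + 1))) w := by
      unfold cost
      rw [tree, map_sum, Finset.untrop_sum']
      refine (Finset.inf_le (Finset.mem_univ (c (2 * v)))).trans ?_
      simp only [Function.comp_apply]
      rw [map_sum, Finset.untrop_sum']
      refine (Finset.inf_le (Finset.mem_univ (c (2 * v + 1)))).trans ?_
      simp only [Function.comp_apply]
      rw [map_mul, map_mul, eval_X, untrop_mul, untrop_mul, untrop_trop]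
      have h5 : w (v, c v, c (2 * v), c (2 * v + 1)) = 1 := h1
      rw [h5, Nat.cast_one]
    calc cost (tree MinPlus R (t + 1) v (c v)) w + 1 ≤
        1 + cost (tree MinPlus R t (2 * v) (c (2 * v))) w + cost (tree MinPlus R t (2 * v + 1) (c (2 * v + 1))) w + 1 :=
          add_le_add_left h4 1
      _ = (cost (tree MinPlus R t (2 * v) (c (2 * v))) w + 1) +
          (cost (tree MinPlus R t (2 * v + 1) (c (2 * v + 1))) w + 1) := by ring
      _ ≤ 2 ^ (t + 1) + 2 ^ (t + 1) := add_le_add h2 h3
      _ = 2 ^ (t + 1 + 1) := by ring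

/-- A polynomial over the tropical semiring whose values are at least those of the tensor network, and at most `r` times
as large, approximates the tensor network up to the factor `r`. -/
theorem approx_of_cost {R h r : ℕ} (g : MvPolynomial (Vr R) MinPlus)
    (hg : ∀ w : Vr R → ℕ, cost (tree MinPlus R h 1 0) w ≤ cost g w ∧ cost g w ≤ r * cost (tree MinPlus R h 1 0) w) :
    Approx r 1 (tree MinPlus R h 1 0) g := by
  classical
  set f := tree MinPlus R h 1 0 with hf
  have hex : ∀ M ∈ f.support, ∃ c : Ed h → Ix R, M = mono h 1 (ext c) := by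
    intro M hM
    rw [mem_support_iff] at hM
    obtain ⟨c, hc, hM⟩ := exists_label h 1 0 M le_rfl hM
    obtain ⟨c', hc'⟩ := exists_lab c hc
    exact ⟨c', hM.trans hc'⟩
  have hone : ∀ M ∈ f.support, ∀ x, M x ≤ 1 := by
    intro M hM x
    obtain ⟨c, rfl⟩ := hex M hM
    exact mono_le_one h 1 (ext c) le_rfl
  have ha : ∀ D ∈ g.support, ∃ M ∈ f.support, M ≤ D := by
    intro D hD
    have hκ : untrop (coeff D g) ≠ ⊤ := by
      intro h1
      rw [mem_support_iff] at hD
      exact hD (untrop_injective (h1.trans untrop_zero.symm))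
    obtain ⟨L, hL⟩ := ENNReal.exists_nat_gt hκ
    let w : Vr R → ℕ := fun x => if x ∈ D.support then 0 else L
    have h1 : wt w D = 0 := by
      unfold wt
      refine Finset.sum_eq_zero fun x hx => ?_
      simp only [w, if_pos hx, mul_zero]
    have h2 : cost g w ≤ untrop (coeff D g) := by
      have := cost_le hD w
      rw [h1] at this
      simpa using this
    have h3 : cost f w ≤ untrop (coeff D g) := (hg w).1.trans h2
    obtain ⟨M, hM, hM'⟩ := exists_cost (ne_top_of_le_ne_top hκ h3)
    refine ⟨M, hM, ?_⟩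
    have h4 : wt w M < L := by
      have h5 : (wt w M : ENNReal) < (L : ENNReal) := lt_of_le_of_lt (hM'.trans h3) hL
      exact_mod_cast h5
    intro x
    by_cases hx : M x = 0
    · rw [hx]; exact Nat.zero_le _
    · have hx' : x ∈ D.support := by
        by_contra hx'
        have h5 : M x * w x ≤ wt w M :=
          Finset.single_le_sum (f := fun x => M x * w x) (fun _ _ => Nat.zero_le _) (Finsupp.mem_support_iff.2 hx)
        have h6 : w x = L := by simp only [w, if_neg hx']
        rw [h6] at h5
        have h7 : L ≤ M x * L := Nat.le_mul_of_pos_left L (Nat.pos_of_ne_zero hx)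
        omega
      have h5 := hone M hM x
      have h6 := Nat.pos_of_ne_zero (Finsupp.mem_support_iff.1 hx')
      omega
  refine ⟨ha, ?_⟩
  rw [one_mul]
  have h1 : {M : Vr R →₀ ℕ | M ∈ f.support ∧ Covers r g M} = ↑f.support := by
    ext M
    simp only [Set.mem_ofPred_eq, Finset.mem_coe]
    constructor
    · exact fun h => h.1
    · intro hM
      refine ⟨hM, ?_⟩
      obtain ⟨c, hc⟩ := hex M hM
      have hdeg : M.degree + 1 = 2 ^ (h + 1) := by rw [hc]; exact mono_degree h 1 (ext c)
      let w : Vr R → ℕ := fun x => if x ∈ M.support then 1 else r * 2 ^ (h + 1) + 1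
      have hw1 : ∀ x, mono h 1 (ext c) x ≠ 0 → w x = 1 := by
        intro x hx
        rw [← hc] at hx
        simp only [w, if_pos (Finsupp.mem_support_iff.2 hx)]
      have h2 := cost_tree_le w h 1 (ext c) hw1
      rw [ext_one] at h2
      have h3 : cost f w ≤ (M.degree : ENNReal) := by
        have h4 : (2 : ENNReal) ^ (h + 1) = (M.degree : ENNReal) + 1 := by
          have : ((2 ^ (h + 1) : ℕ) : ENNReal) = ((M.degree + 1 : ℕ) : ENNReal) := by rw [hdeg]
          push_cast at this
          exact this
        rw [h4] at h2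
        exact (ENNReal.add_le_add_iff_right ENNReal.one_ne_top).1 h2
      have h4 : cost g w ≤ ((r * M.degree : ℕ) : ENNReal) := by
        refine (hg w).2.trans ?_
        rw [Nat.cast_mul]
        exact mul_le_mul_right h3 _
      obtain ⟨D, hD, hD'⟩ := exists_cost (ne_top_of_le_ne_top (ENNReal.natCast_ne_top _) h4)
      have h5 : wt w D ≤ r * M.degree := by
        have h6 : (wt w D : ENNReal) ≤ ((r * M.degree : ℕ) : ENNReal) := hD'.trans h4
        exact_mod_cast h6
      have h6 : D.support ⊆ M.support := by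
        intro x hx
        by_contra hx'
        have h7 : D x * w x ≤ wt w D :=
          Finset.single_le_sum (f := fun x => D x * w x) (fun _ _ => Nat.zero_le _) hx
        have h8 : w x = r * 2 ^ (h + 1) + 1 := by simp only [w, if_neg hx']
        rw [h8] at h7
        have h9 : 1 ≤ D x := Nat.pos_of_ne_zero (Finsupp.mem_support_iff.1 hx)
        have h10 : r * M.degree ≤ r * 2 ^ (h + 1) := Nat.mul_le_mul_left _ (by omega)
        nlinarith
      refine ⟨D, hD, Finset.Subset.antisymm h6 ?_, ?_⟩
      · obtain ⟨M', hM', hMD⟩ := ha D hD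
        obtain ⟨c', hc'⟩ := hex M' hM'
        intro x hx
        rw [Finsupp.mem_support_iff, hc, mem_lab] at hx
        have h7 : M' (vr (ext c') x.1) ≠ 0 := by
          rw [hc', mem_lab]
          exact ⟨hx.1, rfl⟩
        have h8 : vr (ext c') x.1 ∈ D.support := by
          rw [Finsupp.mem_support_iff]
          have := hMD (vr (ext c') x.1)
          omega
        have h9 := h6 h8
        rw [Finsupp.mem_support_iff, hc, mem_lab] at h9
        have h10 : vr (ext c') x.1 = x := by
          rw [h9.2]
          exact hx.2.symm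
        rw [← h10]
        exact h8
      · have h7 : wt w D = D.degree := by
          unfold wt
          rw [Finsupp.degree_apply]
          refine Finset.sum_congr rfl fun x hx => ?_
          simp only [w, if_pos (h6 hx), mul_one]
        rw [← h7]
        exact h5
  rw [h1, Set.ncard_coe_finset]

end Pool.Agent.H86.Vws
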